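import Pool.Agent.W997.DB.Sys

/-!
# The counting lemma for programs with arbitrary branching

A program may have any set of next states.  The lemma counts the assignments of values to the nodes
for which every unknown node is alive on some computation from a given state, if only few entries of
the tables of the parents are read in the states which are reachable from this state.
-/

set_option autoImplicit false

namespace Pool.Agent.W997.GS

open Finset
open Pool.Agent.W997.TS (DBP)
open Pool.Agent.W997.DB (Sys)

/-- A program over the variables `V`: in the state `q` the variable `query q` is read, and if its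
value is `c` then the program may go to any state in `next q c`. -/
structure GP (V : Type) (k : ℕ) where
  /-- the states -/
  State : Type
  /-- there are finitely many states -/
  [fintype : Fintype State]
  /-- the start state -/
  start : State
  /-- the variable read in a state -/
  query : State → V
  /-- the set of the possible next states -/
  next : State → Fin k → Set State

attribute [instance] GP.fintype

namespace GP

variable {V : Type} {k : ℕ}

/-- The steps on the input `x`. -/
def Move (P : GP V k) (x : V → Fin k) (q q' : P.State) : Prop := q' ∈ P.next q (x (P.query q))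

/-- `q'` is reachable from `q` on the input `x`. -/
def From (P : GP V k) (x : V → Fin k) (q q' : P.State) : Prop := Relation.ReflTransGen (P.Move x) q q'

/-- A list of states is a computation from `q`. -/
def Walk (P : GP V k) (x : V → Fin k) : P.State → List P.State → Prop
  | _, [] => True
  | q, q' :: l => P.Move x q q' ∧ P.Walk x q' l

/-- A deterministic program with the same states and queries (only these are used). -/
abbrev dbp (P : GP V k) : DBP V k where
  State := P.State
  fintype := P.fintype
  start := P.start
  query := P.query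
  next := fun _ _ => Sum.inr true

/-- The variables read in the states which are reachable from `q`. -/
noncomputable def rd [DecidableEq V] (P : GP V k) (x : V → Fin k) (q : P.State) : Finset V :=
  open Classical in (univ.filter (fun q' => P.From x q q')).image P.query

theorem mem_rd [DecidableEq V] (P : GP V k) {x : V → Fin k} {q : P.State} {v : V} :
    v ∈ P.rd x q ↔ ∃ q', P.From x q q' ∧ P.query q' = v := by
  classical
  simp [rd]

end GP

variable {V Γ : Type} {D k : ℕ} [Fintype Γ] [DecidableEq Γ] [DecidableEq V] (Y : Sys V Γ D k)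
  (P : GP V k)

/-- The entries of the node `a` which are read in the states reachable from `q`. -/
noncomputable def rdAt (x : V → Fin k) (q : P.State) (a : Γ × Fin D) : Finset V :=
  (P.rd x q).filter (fun w => Y.nodeOf w = a)

omit [Fintype Γ] in
theorem mem_rdAt {x : V → Fin k} {q : P.State} {a : Γ × Fin D} {v : V} :
    v ∈ rdAt Y P x q a ↔ (∃ q', P.From x q q' ∧ P.query q' = v) ∧ Y.nodeOf v = a := by
  rw [rdAt, mem_filter, P.mem_rd]

/-- There is a discovered state which can be processed. -/
theorem front (x : V → Fin k) (z : Γ × Fin D → Fin k) (U : Finset (Γ × Fin D))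
    (hU : U.Nonempty) (Q Dn : Finset P.State)
    (hcl : ∀ q ∈ Dn, ∀ q', P.Move x q q' → q' ∈ Q)
    (hdn : ∀ q ∈ Dn, ∀ c ∈ U, P.query q ≠ Y.pos z c ∧ ∀ a ∈ Y.prs c.1, P.query q ≠ Y.pos z a) :
    ∀ (l : List P.State) (q : P.State), q ∈ Q → P.Walk x q l →
      (∀ c ∈ U, Y.Live P.dbp z c (q :: l)) →
      ∃ q' ∈ Q, q' ∉ Dn ∧ ∀ c ∈ U, P.query q' ≠ Y.pos z c
  | l, q, hq, hw, hl => by
    by_cases hqD : q ∈ Dn
    · have hl' : ∀ c ∈ U, Y.Live P.dbp z c l := by
        intro c hc
        rcases hl c hc with ⟨a, ha, h1⟩ | ⟨-, h1⟩
        · exact absurd h1 ((hdn q hqD c hc).2 a ha)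
        · exact h1
      cases l with
      | nil =>
        obtain ⟨c, hc⟩ := hU
        exact absurd (hl' c hc) (by simp [Sys.Live])
      | cons q' l =>
        exact front x z U hU Q Dn hcl hdn l q' (hcl q hqD q' hw.1) hw.2 hl'
    · refine ⟨q, hq, hqD, ?_⟩
      intro c hc h1
      rcases hl c hc with ⟨a, ha, h2⟩ | ⟨h2, -⟩
      · have h2' : P.query q = Y.pos z a := h2
        have h3 : a = c := by
          rw [← Y.nodeOf_pos z a, ← h2', h1, Y.nodeOf_pos]
        subst h3
        obtain ⟨h4, h5⟩ := Y.mem_prs.1 ha
        exact Y.cg_ne h4 h5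
      · exact h2 h1

/-- **The counting lemma.** -/
theorem count (g : V → Fin k) (t : ℕ) (q0 : P.State) : ∀ (μ : ℕ) (U : Finset (Γ × Fin D))
    (Q Dn : Finset P.State) (Z : Γ × Fin D → Finset V) (X : Finset (Γ × Fin D → Fin k)),
    (U.image Prod.fst).card + (Fintype.card P.State - Dn.card) ≤ μ → q0 ∈ Q →
    (∀ z ∈ X, ∀ w ∈ X, ∀ c, c ∉ U → z c = w c) →
    (∀ z ∈ X, ∀ γ ∈ U.image Prod.fst, ∀ a ∈ Y.prs γ, Y.pos z a ∉ Z a) →
    (∀ z ∈ X, ∀ a, Z a ⊆ rdAt Y P (Y.inp g z) q0 a) →
    (∀ z ∈ X, ∀ q ∈ Q, P.From (Y.inp g z) q0 q) →
    (∀ z ∈ X, ∀ q ∈ Dn, ∀ q', P.Move (Y.inp g z) q q' → q' ∈ Q) →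
    (∀ z ∈ X, ∀ q ∈ Dn, ∀ c ∈ U, P.query q ≠ Y.pos z c ∧
      ∀ a ∈ Y.prs c.1, P.query q ≠ Y.pos z a) →
    (∀ z ∈ X, ∃ l : List P.State, P.Walk (Y.inp g z) q0 l ∧
      (∀ c ∈ U, Y.Live P.dbp z c (q0 :: l)) ∧
      ∀ a, (rdAt Y P (Y.inp g z) q0 a).card ≤ t) →
    X.card ≤ ∏ γ ∈ U.image Prod.fst, ∑ a ∈ Y.prs γ, (t - (Z a).card) := by
  classical
  intro μ
  induction μ with
  | zero =>
    intro U Q Dn Z X hμ hq0 hX hZ hZr hQ hcl hdn h
    have hUe : U = ∅ := by
      have h1 : (U.image Prod.fst).card = 0 := by omega
      rw [card_eq_zero, image_eq_empty] at h1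
      exact h1
    subst hUe
    have h3 : X.card ≤ 1 := by
      rw [card_le_one]
      intro z hz w hw
      funext c
      exact hX z hz w hw c (notMem_empty c)
    simpa using h3
  | succ μ ih =>
    intro U Q Dn Z X hμ hq0 hX hZ hZr hQ hcl hdn h
    rcases X.eq_empty_or_nonempty with rfl | ⟨z0, hz0⟩
    · simp
    rcases U.eq_empty_or_nonempty with rfl | hU
    · have h3 : X.card ≤ 1 := by
        rw [card_le_one]
        intro z hz w hw
        funext c
        exact hX z hz w hw c (notMem_empty c)
      simpa using h3
    obtain ⟨l0, hl0, hl1, hl2⟩ := h z0 hz0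
    obtain ⟨q, hqQ, hqD, hqU⟩ := front Y P (Y.inp g z0) z0 U hU Q Dn (hcl z0 hz0) (hdn z0 hz0)
      l0 q0 hq0 hl0 hl1
    set w0 := P.query q with hw0
    set i := Y.nodeOf w0 with hi
    -- the state `q` is processed
    have step : ∀ (X' : Finset (Γ × Fin D → Fin k)) (Z' : Γ × Fin D → Finset V) (a0 : Fin k),
        X' ⊆ X → (∀ z ∈ X', Y.inp g z w0 = a0) →
        (∀ z ∈ X', ∀ c ∈ U, w0 ≠ Y.pos z c ∧ ∀ a ∈ Y.prs c.1, w0 ≠ Y.pos z a) →
        (∀ z ∈ X', ∀ γ ∈ U.image Prod.fst, ∀ a ∈ Y.prs γ, Y.pos z a ∉ Z' a) →
        (∀ z ∈ X', ∀ a, Z' a ⊆ rdAt Y P (Y.inp g z) q0 a) →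
        X'.card ≤ ∏ γ ∈ U.image Prod.fst, ∑ a ∈ Y.prs γ, (t - (Z' a).card) := by
      intro X' Z' a0 hXX hans hno hZ' hZr'
      refine ih U (Q ∪ univ.filter (fun q' => q' ∈ P.next q a0)) (insert q Dn) Z' X' ?_ ?_ ?_ hZ'
        hZr' ?_ ?_ ?_ ?_
      · rw [card_insert_of_notMem hqD]
        have : Dn.card < Fintype.card P.State := card_lt_univ_of_notMem hqD
        omega
      · exact mem_union_left _ hq0
      · intro z hz w hw
        exact hX z (hXX hz) w (hXX hw)
      · intro z hz q' hq'
        rcases mem_union.1 hq' with hq' | hq'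
        · exact hQ z (hXX hz) q' hq'
        · refine Relation.ReflTransGen.tail (hQ z (hXX hz) q hqQ) ?_
          have h1 := (mem_filter.1 hq').2
          unfold GP.Move
          rw [← hw0, hans z hz]
          exact h1
      · intro z hz q1 hq1 q' hq'
        rcases mem_insert.1 hq1 with rfl | hq1
        · apply mem_union_right
          rw [mem_filter]
          refine ⟨mem_univ _, ?_⟩
          unfold GP.Move at hq'
          rw [← hw0, hans z hz] at hq'
          exact hq'
        · exact mem_union_left _ (hcl z (hXX hz) q1 hq1 q' hq')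
      · intro z hz q1 hq1 c hc
        rcases mem_insert.1 hq1 with rfl | hq1
        · exact hno z hz c hc
        · exact hdn z (hXX hz) q1 hq1 c hc
      · intro z hz
        exact h z (hXX hz)
    by_cases hiP : 0 < Y.ht i.1 ∧ Y.cg i ∈ U.image Prod.fst
    · obtain ⟨hin, hiP⟩ := hiP
      have hipr : i ∈ Y.prs (Y.cg i) := Y.mem_prs.2 ⟨hin, rfl⟩
      have hnoP : ∀ z ∈ X, w0 ≠ Y.pos z i → ∀ c ∈ U, w0 ≠ Y.pos z c ∧
          ∀ a ∈ Y.prs c.1, w0 ≠ Y.pos z a := by
        intro z _ hne c _
        refine ⟨?_, ?_⟩
        · intro h1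
          have h2 : c = i := by rw [hi, h1, Y.nodeOf_pos]
          subst h2
          exact hne h1
        · intro a _ h1
          have h2 : a = i := by rw [hi, h1, Y.nodeOf_pos]
          subst h2
          exact hne h1
      by_cases hwZ : w0 ∈ Z i
      · -- already tried
        have hne : ∀ z ∈ X, w0 ≠ Y.pos z i := fun z hz h1 => hZ z hz _ hiP i hipr (h1 ▸ hwZ)
        refine step X Z (g w0) (Subset.refl _) ?_ (fun z hz => hnoP z hz (hne z hz)) hZ hZr
        intro z hz
        unfold Sys.inp
        rw [if_neg]
        exact hne z hz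
      · -- a new candidate
        set Xy := X.filter (fun z => w0 = Y.pos z i) with hXy
        set Xn := X.filter (fun z => ¬ w0 = Y.pos z i) with hXn
        have hsum : X.card = Xy.card + Xn.card := by
          rw [hXy, hXn]
          exact (card_filter_add_card_filter_not _).symm
        set U' := U.filter (fun c => c.1 ≠ Y.cg i) with hU'
        have hU'U : U' ⊆ U := filter_subset _ _
        have himg : U'.image Prod.fst = (U.image Prod.fst).erase (Y.cg i) := by
          ext p
          simp only [hU', mem_image, mem_filter, mem_erase]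
          constructor
          · rintro ⟨c, ⟨hc1, hc2⟩, rfl⟩
            exact ⟨hc2, c, hc1, rfl⟩
          · rintro ⟨h1, c, hc, rfl⟩
            exact ⟨c, ⟨hc, h1⟩, rfl⟩
        have hwr : ∀ z ∈ X, w0 ∈ rdAt Y P (Y.inp g z) q0 i := fun z hz =>
          (mem_rdAt Y P).2 ⟨⟨q, hQ z hz q hqQ, rfl⟩, rfl⟩
        have hZcard : (Z i).card + 1 ≤ t := by
          obtain ⟨l, -, -, hb⟩ := h z0 hz0
          have h1 := hb i
          have h2 : insert w0 (Z i) ⊆ rdAt Y P (Y.inp g z0) q0 i := by
            intro w hw
            rcases mem_insert.1 hw with rfl | hw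
            · exact hwr z0 hz0
            · exact hZr z0 hz0 i hw
          have h3 := card_le_card h2
          rw [card_insert_of_notMem hwZ] at h3
          omega
        have hy : Xy.card ≤ ∏ γ ∈ (U.image Prod.fst).erase (Y.cg i),
            ∑ a ∈ Y.prs γ, (t - (Z a).card) := by
          rw [← himg]
          have hsub : ∀ z ∈ Xy, z ∈ X ∧ w0 = Y.pos z i := fun z hz => mem_filter.1 hz
          refine ih U' Q Dn Z Xy ?_ hq0 ?_ ?_ ?_ ?_ ?_ ?_ ?_
          · rw [himg, card_erase_of_mem hiP]
            have : 0 < (U.image Prod.fst).card := card_pos.2 ⟨_, hiP⟩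
            omega
          · intro z hz w hw c hc
            by_cases hcU : c ∈ U
            · have hpc : c.1 = Y.cg i := by
                by_contra hne
                exact hc (mem_filter.2 ⟨hcU, hne⟩)
              have h2 : Y.pos z i = Y.pos w i := (hsub z hz).2.symm.trans (hsub w hw).2
              have h3 := (Y.pos_eq_iff z w i).1 h2 hin c.2
              rw [← hpc] at h3
              exact h3
            · exact hX z (hsub z hz).1 w (hsub w hw).1 c hcU
          · intro z hz γ hγ a ha
            exact hZ z (hsub z hz).1 γ (image_subset_image hU'U hγ) a ha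
          · intro z hz a
            exact hZr z (hsub z hz).1 a
          · intro z hz
            exact hQ z (hsub z hz).1
          · intro z hz
            exact hcl z (hsub z hz).1
          · intro z hz q1 hq1 c hc
            exact hdn z (hsub z hz).1 q1 hq1 c (hU'U hc)
          · intro z hz
            obtain ⟨l, h1, h2, h3⟩ := h z (hsub z hz).1
            exact ⟨l, h1, fun c hc => h2 c (hU'U hc), h3⟩
        set A := ∑ a ∈ (Y.prs (Y.cg i)).erase i, (t - (Z a).card) with hA
        have hsA : ∑ a ∈ Y.prs (Y.cg i), (t - (Z a).card) = (t - (Z i).card) + A :=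
          (add_sum_erase _ _ hipr).symm
        have hn' : Xn.card ≤ ((t - ((Z i).card + 1)) + A) *
            ∏ γ ∈ (U.image Prod.fst).erase (Y.cg i), ∑ a ∈ Y.prs γ, (t - (Z a).card) := by
          set Z' := Function.update Z i (insert w0 (Z i)) with hZ'
          have h1 : ∏ γ ∈ U.image Prod.fst, ∑ a ∈ Y.prs γ, (t - (Z' a).card) =
              ((t - ((Z i).card + 1)) + A) *
              ∏ γ ∈ (U.image Prod.fst).erase (Y.cg i), ∑ a ∈ Y.prs γ, (t - (Z a).card) := by
            rw [← mul_prod_erase _ _ hiP]
            congr 1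
            · rw [← add_sum_erase _ _ hipr]
              congr 1
              · rw [hZ', Function.update_self, card_insert_of_notMem hwZ]
              · apply sum_congr rfl
                intro a ha
                rw [hZ', Function.update_of_ne (mem_erase.1 ha).1]
            · apply prod_congr rfl
              intro γ hγ
              apply sum_congr rfl
              intro a ha
              rw [hZ', Function.update_of_ne]
              intro hai
              subst hai
              exact (mem_erase.1 hγ).1 (Y.mem_prs.1 ha).2.symm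
          rw [← h1]
          have hsub : ∀ z ∈ Xn, z ∈ X ∧ ¬ w0 = Y.pos z i := fun z hz => mem_filter.1 hz
          refine step Xn Z' (g w0) (filter_subset _ _) ?_ ?_ ?_ ?_
          · intro z hz
            unfold Sys.inp
            rw [if_neg (hsub z hz).2]
          · intro z hz
            exact hnoP z (hsub z hz).1 (hsub z hz).2
          · intro z hz γ hγ a ha
            by_cases hpi : a = i
            · subst hpi
              rw [hZ', Function.update_self, mem_insert, not_or]
              exact ⟨fun h4 => (hsub z hz).2 h4.symm, hZ z (hsub z hz).1 _ hγ _ ha⟩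
            · rw [hZ', Function.update_of_ne hpi]
              exact hZ z (hsub z hz).1 γ hγ a ha
          · intro z hz a
            by_cases hpi : a = i
            · subst hpi
              rw [hZ', Function.update_self]
              intro w hw
              rcases mem_insert.1 hw with rfl | hw
              · exact hwr z (hsub z hz).1
              · exact hZr z (hsub z hz).1 _ hw
            · rw [hZ', Function.update_of_ne hpi]
              exact hZr z (hsub z hz).1 a
        rw [hsum, ← mul_prod_erase _ _ hiP, hsA]
        calc Xy.card + Xn.card ≤ ∏ γ ∈ (U.image Prod.fst).erase (Y.cg i),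
              ∑ a ∈ Y.prs γ, (t - (Z a).card) +
              ((t - ((Z i).card + 1)) + A) * ∏ γ ∈ (U.image Prod.fst).erase (Y.cg i),
              ∑ a ∈ Y.prs γ, (t - (Z a).card) :=
              Nat.add_le_add hy hn'
          _ = ((t - (Z i).card) + A) * ∏ γ ∈ (U.image Prod.fst).erase (Y.cg i),
              ∑ a ∈ Y.prs γ, (t - (Z a).card) := by
              have : t - (Z i).card = 1 + (t - ((Z i).card + 1)) := by omega
              rw [this]; ring
    · -- a node which is not the parent of a node in `U`
      have hposeq : ∀ z ∈ X, Y.pos z i = Y.pos z0 i := by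
        intro z hz
        rw [Y.pos_eq_iff]
        intro hin s
        refine hX z hz z0 hz0 _ ?_
        intro hkU
        exact hiP ⟨hin, mem_image_of_mem Prod.fst hkU⟩
      have hnoa : ∀ z ∈ X, ∀ c ∈ U, ∀ a ∈ Y.prs c.1, w0 ≠ Y.pos z a := by
        intro z _ c hc a ha h1
        have h2 : a = i := by rw [hi, h1, Y.nodeOf_pos]
        subst h2
        obtain ⟨h3, h4⟩ := Y.mem_prs.1 ha
        apply hiP
        refine ⟨h3, ?_⟩
        rw [h4]
        exact mem_image_of_mem _ hc
      have hnoc : ∀ z ∈ X, ∀ c ∈ U, w0 ≠ Y.pos z c := by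
        intro z hz c hc h1
        have h2 : c = i := by rw [hi, h1, Y.nodeOf_pos]
        subst h2
        exact hqU _ hc (h1.trans (hposeq z hz))
      by_cases hthr : w0 = Y.pos z0 i
      · have hiU : i ∉ U := fun hiU => hqU i hiU hthr
        refine step X Z (z0 i) (Subset.refl _) ?_
          (fun z hz c hc => ⟨hnoc z hz c hc, hnoa z hz c hc⟩) hZ hZr
        intro z hz
        have h1 : w0 = Y.pos z i := by rw [hposeq z hz]; exact hthr
        rw [h1, Y.inp_pos]
        exact hX z hz z0 hz0 i hiU
      · refine step X Z (g w0) (Subset.refl _) ?_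
          (fun z hz c hc => ⟨hnoc z hz c hc, hnoa z hz c hc⟩) hZ hZr
        intro z hz
        unfold Sys.inp
        rw [if_neg]
        rw [← hi, hposeq z hz]
        exact hthr

end Pool.Agent.W997.GS
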