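import Mathlib

/-!
# Deterministic programs with a stack, and the packing of stack symbols
-/

set_option autoImplicit false

namespace Pool.Agent.W997.GS

open Finset

/-- A deterministic program with a stack over the variables `V`: in the state `q` the variable
`query q` is read; if its value is `c` and `s` is the topmost symbol of the stack (`none` if the
stack is empty), then the program stops with an output, or it goes to a state `q'` and replaces the
topmost symbol by a word `u`. -/
structure DSP (V : Type) (k : ℕ) where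
  /-- the states -/
  State : Type
  /-- the stack symbols -/
  Sym : Type
  /-- there are finitely many states -/
  [fintypeState : Fintype State]
  /-- there are finitely many stack symbols -/
  [fintypeSym : Fintype Sym]
  /-- the start state -/
  start : State
  /-- the variable read in a state -/
  query : State → V
  /-- the move, or the output -/
  next : State → Option Sym → Fin k → (State × List Sym) ⊕ Bool

attribute [instance] DSP.fintypeState DSP.fintypeSym

namespace DSP

variable {V : Type} {k : ℕ}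

/-- The configurations: a state and the content of the stack, topmost symbol first. -/
abbrev Conf (P : DSP V k) : Type := P.State × List P.Sym

/-- The number of states and stack symbols. -/
def size (P : DSP V k) : ℕ := Fintype.card P.State + Fintype.card P.Sym

/-- The steps on the input `x`. -/
def Step (P : DSP V k) (x : V → Fin k) (κ κ' : P.Conf) : Prop :=
  ∃ u, P.next κ.1 κ.2.head? (x (P.query κ.1)) = Sum.inl (κ'.1, u) ∧ κ'.2 = u ++ κ.2.tail

/-- `P.IsPath x κ l r`: on the input `x`, started in the configuration `κ`, the program visits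
after `κ` exactly the configurations in the list `l`, in this order, and then stops with output
`r`. -/
def IsPath (P : DSP V k) (x : V → Fin k) : P.Conf → List P.Conf → Bool → Prop
  | κ, [], r => P.next κ.1 κ.2.head? (x (P.query κ.1)) = Sum.inr r
  | κ, κ' :: l, r => P.Step x κ κ' ∧ P.IsPath x κ' l r

/-- `P.Run x t m τ r`: on the input `x` the program, started with empty stack, stops after exactly
`t` steps with output `r`; it has read `m` different variables, and the stack never contained more
than `τ` symbols. -/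
def Run [DecidableEq V] (P : DSP V k) (x : V → Fin k) (t m τ : ℕ) (r : Bool) : Prop :=
  ∃ l : List P.Conf, P.IsPath x (P.start, []) l r ∧ ((P.start, []) :: l : List P.Conf).length = t ∧
    (((P.start, []) :: l : List P.Conf).map (fun κ => P.query κ.1)).toFinset.card = m ∧
    ∀ κ ∈ l, κ.2.length ≤ τ

/-! ### Steps with a property -/

/-- From `κ` the program reaches `κ'` after `t` steps, and all configurations before `κ'` satisfy
`Q`. -/
def StepsQ (P : DSP V k) (x : V → Fin k) (Q : P.Conf → Prop) : P.Conf → ℕ → P.Conf → Prop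
  | κ, 0, κ' => κ = κ'
  | κ, t + 1, κ' => Q κ ∧ ∃ κ1, P.Step x κ κ1 ∧ StepsQ P x Q κ1 t κ'

theorem StepsQ.append {P : DSP V k} {x : V → Fin k} {Q : P.Conf → Prop} : ∀ {t : ℕ}
    {κ κ' : P.Conf} {t' : ℕ} {κ'' : P.Conf}, StepsQ P x Q κ t κ' → StepsQ P x Q κ' t' κ'' →
      StepsQ P x Q κ (t + t') κ''
  | 0, κ, κ', t', κ'', h, h' => by
    have : κ = κ' := h
    subst this
    rwa [Nat.zero_add]
  | t + 1, κ, κ', t', κ'', h, h' => by
    obtain ⟨h0, κ1, h1, h2⟩ := h
    rw [Nat.add_right_comm]
    exact ⟨h0, κ1, h1, StepsQ.append h2 h'⟩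

theorem StepsQ.mono {P : DSP V k} {x : V → Fin k} {Q Q' : P.Conf → Prop}
    (hQ : ∀ κ, Q κ → Q' κ) : ∀ {t : ℕ} {κ κ' : P.Conf}, StepsQ P x Q κ t κ' → StepsQ P x Q' κ t κ'
  | 0, _, _, h => h
  | _ + 1, _, _, ⟨h0, κ1, h1, h2⟩ => ⟨hQ _ h0, κ1, h1, StepsQ.mono hQ h2⟩

theorem StepsQ.halts {P : DSP V k} {x : V → Fin k} {Q : P.Conf → Prop} {r : Bool} : ∀ {t : ℕ}
    {κ κ' : P.Conf}, StepsQ P x Q κ t κ' → Q κ' →
      P.next κ'.1 κ'.2.head? (x (P.query κ'.1)) = Sum.inr r →
      ∃ l : List P.Conf, l.length + 1 = t + 1 ∧ P.IsPath x κ l r ∧ ∀ s ∈ κ :: l, Q s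
  | 0, κ, κ', h, hQ, h' => by
    have : κ = κ' := h
    subst this
    exact ⟨[], rfl, h', by simpa using hQ⟩
  | t + 1, κ, κ', h, hQ, h' => by
    obtain ⟨h0, κ1, h1, h2⟩ := h
    obtain ⟨l, hl, hp, hq⟩ := StepsQ.halts h2 hQ h'
    refine ⟨κ1 :: l, by rw [List.length_cons]; omega, ⟨h1, hp⟩, ?_⟩
    intro s hs
    rcases List.mem_cons.1 hs with rfl | hs
    · exact h0
    · exact hq s hs

/-! ### Packing -/

/-- The words of length at most `n`. -/
abbrev Buf (α : Type) (n : ℕ) : Type := {l : List α // l.length ≤ n}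

/-- The words of length `r`. -/
abbrev Blk (α : Type) (r : ℕ) : Type := {l : List α // l.length = r}

noncomputable instance instFintypeBuf (α : Type) [Fintype α] (n : ℕ) : Fintype (Buf α n) :=
  @Fintype.ofFinite _ (List.finite_length_le α n).to_subtype

noncomputable instance instFintypeBlk (α : Type) [Fintype α] (r : ℕ) : Fintype (Blk α r) :=
  @Fintype.ofFinite _ (List.finite_length_eq α r).to_subtype

theorem card_buf (α : Type) [Fintype α] (n : ℕ) :
    Fintype.card (Buf α n) ≤ (Fintype.card α + 1) ^ n := by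
  classical
  have h1 : Fintype.card (Fin n → Option α) = (Fintype.card α + 1) ^ n := by
    rw [Fintype.card_fun, Fintype.card_option, Fintype.card_fin]
  rw [← h1]
  refine Fintype.card_le_of_injective (fun l => fun i => l.1[i.1]?) ?_
  rintro ⟨l, hl⟩ ⟨l', hl'⟩ he
  apply Subtype.ext
  simp only
  apply List.ext_getElem?
  intro i
  by_cases hi : i < n
  · exact congrFun he ⟨i, hi⟩
  · rw [List.getElem?_eq_none (by omega), List.getElem?_eq_none (by omega)]

theorem card_blk (α : Type) [Fintype α] (r : ℕ) :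
    Fintype.card (Blk α r) ≤ (Fintype.card α + 1) ^ r := by
  refine le_trans ?_ (card_buf α r)
  exact Fintype.card_le_of_injective (fun l => (⟨l.1, l.2.le⟩ : Buf α r))
    (fun l l' h => Subtype.ext (congrArg (fun z => z.1) h))

/-- The visible part of the stack. -/
def vis {α : Type} {r : ℕ} (β : List α) (top : Option (Blk α r)) : List α :=
  if β = [] then (top.map (fun B => B.1)).getD [] else β

/-- The part of the word replacing the topmost block which is below the buffer. -/
def rest {α : Type} {r : ℕ} (β : List α) (top : Option (Blk α r)) : List (Blk α r) :=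
  if β = [] then [] else top.toList

/-- The new buffer and the word replacing the topmost block. -/
def store {α : Type} (r : ℕ) (β : List α) (rs : List (Blk α r)) : Buf α (2 * r) × List (Blk α r) :=
  if h : β.length ≤ 2 * r then (⟨β, h⟩, rs)
  else if h' : β.length = 2 * r + 1 ∧ 1 ≤ r then
    (⟨β.take (r + 1), by rw [List.length_take]; omega⟩,
      ⟨β.drop (r + 1), by rw [List.length_drop]; omega⟩ :: rs)
  else (⟨[], Nat.zero_le _⟩, rs)

/-- The packed program: the buffer contains the top of the stack, the remaining symbols are grouped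
into blocks of length `r`. -/
noncomputable abbrev pack (P : DSP V k) (r : ℕ) : DSP V k where
  State := P.State × Buf P.Sym (2 * r)
  Sym := Blk P.Sym r
  start := (P.start, ⟨[], Nat.zero_le _⟩)
  query := fun q => P.query q.1
  next := fun q top c =>
    match P.next q.1 (vis q.2.1 top).head? c with
    | Sum.inr b => Sum.inr b
    | Sum.inl (q', u) =>
      Sum.inl ((q', (store r (u ++ (vis q.2.1 top).tail) (rest q.2.1 top)).1),
        (store r (u ++ (vis q.2.1 top).tail) (rest q.2.1 top)).2)

/-- The symbols in a list of blocks. -/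
def unp {α : Type} {r : ℕ} (Bs : List (Blk α r)) : List α := (Bs.map (fun B => B.1)).flatten

theorem unp_cons {α : Type} {r : ℕ} (B : Blk α r) (Bs : List (Blk α r)) :
    unp (B :: Bs) = B.1 ++ unp Bs := rfl

theorem unp_append {α : Type} {r : ℕ} (Bs Bs' : List (Blk α r)) :
    unp (Bs ++ Bs') = unp Bs ++ unp Bs' := by
  simp [unp]

theorem length_unp {α : Type} {r : ℕ} : ∀ Bs : List (Blk α r), (unp Bs).length = r * Bs.length
  | [] => rfl
  | B :: Bs => by
    rw [unp_cons, List.length_append, length_unp Bs, B.2, List.length_cons]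
    ring

theorem store_unp {α : Type} {r : ℕ} (hr : 1 ≤ r) (β : List α) (hβ : β.length ≤ 2 * r + 1)
    (rs : List (Blk α r)) :
    (store r β rs).1.1 ++ unp (store r β rs).2 = β ++ unp rs := by
  unfold store
  split_ifs with h h'
  · rfl
  · simp only [unp_cons]
    rw [← List.append_assoc, List.take_append_drop]
  · omega

theorem vis_unp {α : Type} {r : ℕ} (β : List α) (Bs : List (Blk α r)) :
    vis β Bs.head? ++ unp (rest β Bs.head? ++ Bs.tail) = β ++ unp Bs := by
  unfold vis rest
  split_ifs with h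
  · subst h
    cases Bs with
    | nil => rfl
    | cons B Bs => rfl
  · cases Bs with
    | nil => rfl
    | cons B Bs => rfl

theorem vis_nil {α : Type} {r : ℕ} (hr : 1 ≤ r) (β : List α) (Bs : List (Blk α r))
    (h : vis β Bs.head? = []) : β = [] ∧ Bs = [] := by
  unfold vis at h
  split_ifs at h with h1
  · refine ⟨h1, ?_⟩
    cases Bs with
    | nil => rfl
    | cons B Bs =>
      have h2 : B.1 = [] := h
      have h3 := B.2
      rw [h2, List.length_nil] at h3
      omega
  · exact absurd h h1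

theorem vis_head {α : Type} {r : ℕ} (hr : 1 ≤ r) (β : List α) (Bs : List (Blk α r)) :
    (β ++ unp Bs).head? = (vis β Bs.head?).head? ∧
      (β ++ unp Bs).tail = (vis β Bs.head?).tail ++ unp (rest β Bs.head? ++ Bs.tail) := by
  by_cases h : vis β Bs.head? = []
  · obtain ⟨rfl, rfl⟩ := vis_nil hr β Bs h
    exact ⟨rfl, rfl⟩
  · rw [← vis_unp β Bs]
    obtain ⟨a, l, hal⟩ := List.exists_cons_of_ne_nil h
    rw [hal]
    exact ⟨rfl, rfl⟩

/-- Corresponding configurations. -/
def Rel (P : DSP V k) (r : ℕ) (κ : P.Conf) (κ' : (P.pack r).Conf) : Prop :=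
  κ.1 = κ'.1.1 ∧ κ.2 = κ'.1.2.1 ++ unp κ'.2

theorem pack_step (P : DSP V k) {r : ℕ} (hr : 1 ≤ r)
    (hu : ∀ q s c q' u, P.next q s c = Sum.inl (q', u) → u.length ≤ 2) (x : V → Fin k)
    {κ κ1 : P.Conf} {κ' : (P.pack r).Conf} (h : P.Rel r κ κ') (hs : P.Step x κ κ1) :
    ∃ κ1' : (P.pack r).Conf, (P.pack r).Step x κ' κ1' ∧ P.Rel r κ1 κ1' := by
  obtain ⟨q, σ⟩ := κ
  obtain ⟨q1, σ1⟩ := κ1
  obtain ⟨⟨q', β⟩, Bs⟩ := κ'
  obtain ⟨h1, h2⟩ := h
  simp only at h1 h2
  subst h1 h2
  obtain ⟨u, h3, h4⟩ := hs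
  simp only at h3 h4
  obtain ⟨e1, e2⟩ := vis_head hr β.1 Bs
  rw [e1] at h3
  rw [e2] at h4
  have hlen : (u ++ (vis β.1 Bs.head?).tail).length ≤ 2 * r + 1 := by
    have h5 := hu _ _ _ _ _ h3
    rw [List.length_append, List.length_tail]
    have h6 : (vis β.1 Bs.head?).length ≤ 2 * r := by
      unfold vis
      split_ifs with h7
      · cases Bs with
        | nil => exact Nat.zero_le _
        | cons B Bs =>
          change B.1.length ≤ 2 * r
          rw [B.2]
          omega
      · exact β.2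
    omega
  refine ⟨((q1, (store r (u ++ (vis β.1 Bs.head?).tail) (rest β.1 Bs.head?)).1),
    (store r (u ++ (vis β.1 Bs.head?).tail) (rest β.1 Bs.head?)).2 ++ Bs.tail),
    ⟨_, ?_, rfl⟩, rfl, ?_⟩
  · change (match P.next q (vis β.1 Bs.head?).head? (x (P.query q)) with
      | Sum.inr b => Sum.inr b
      | Sum.inl (q', u) => _) = _
    rw [h3]
  · simp only
    rw [unp_append, ← List.append_assoc, store_unp hr _ hlen, h4, unp_append]
    simp only [List.append_assoc]

theorem pack_stop (P : DSP V k) {r : ℕ} (hr : 1 ≤ r) (x : V → Fin k)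
    {κ : P.Conf} {κ' : (P.pack r).Conf} {b : Bool} (h : P.Rel r κ κ')
    (hs : P.next κ.1 κ.2.head? (x (P.query κ.1)) = Sum.inr b) :
    (P.pack r).next κ'.1 κ'.2.head? (x ((P.pack r).query κ'.1)) = Sum.inr b := by
  obtain ⟨q, σ⟩ := κ
  obtain ⟨⟨q', β⟩, Bs⟩ := κ'
  obtain ⟨h1, h2⟩ := h
  simp only at h1 h2
  subst h1 h2
  simp only at hs
  rw [(vis_head hr β.1 Bs).1] at hs
  change (match P.next q (vis β.1 Bs.head?).head? (x (P.query q)) with
      | Sum.inr b => Sum.inr b
      | Sum.inl (q', u) => _) = _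
  rw [hs]

theorem pack_path (P : DSP V k) {r : ℕ} (hr : 1 ≤ r)
    (hu : ∀ q s c q' u, P.next q s c = Sum.inl (q', u) → u.length ≤ 2) (x : V → Fin k) {b : Bool} :
    ∀ (l : List P.Conf) (κ : P.Conf) (κ' : (P.pack r).Conf), P.Rel r κ κ' → P.IsPath x κ l b →
      ∃ l' : List (P.pack r).Conf, (P.pack r).IsPath x κ' l' b ∧ List.Forall₂ (P.Rel r) l l'
  | [], κ, κ', h, hp => ⟨[], P.pack_stop hr x h hp, List.Forall₂.nil⟩
  | κ1 :: l, κ, κ', h, hp => by
    obtain ⟨κ1', h1, h2⟩ := P.pack_step hr hu x h hp.1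
    obtain ⟨l', h3, h4⟩ := pack_path P hr hu x l κ1 κ1' h2 hp.2
    exact ⟨κ1' :: l', ⟨h1, h3⟩, List.Forall₂.cons h2 h4⟩

theorem pack_query (P : DSP V k) {r : ℕ} : ∀ {l : List P.Conf} {l' : List (P.pack r).Conf},
    List.Forall₂ (P.Rel r) l l' →
      l'.map (fun κ => (P.pack r).query κ.1) = l.map (fun κ => P.query κ.1)
  | _, _, List.Forall₂.nil => rfl
  | _, _, List.Forall₂.cons h1 h2 => by
    rw [List.map_cons, List.map_cons, pack_query P h2]
    congr 1
    exact congrArg P.query h1.1.symm

theorem pack_height (P : DSP V k) {r : ℕ} (hr : 1 ≤ r) {τ : ℕ} :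
    ∀ {l : List P.Conf} {l' : List (P.pack r).Conf}, List.Forall₂ (P.Rel r) l l' →
      (∀ κ ∈ l, κ.2.length ≤ τ) → ∀ κ ∈ l', κ.2.length ≤ τ / r
  | _, _, List.Forall₂.nil, _ => by simp
  | _, _, @List.Forall₂.cons _ _ _ κ1 κ1' _ _ h1 h2, h => by
    intro κ hκ
    rcases List.mem_cons.1 hκ with rfl | hκ
    · have h3 := h κ1 List.mem_cons_self
      rw [h1.2, List.length_append, length_unp] at h3
      rw [Nat.le_div_iff_mul_le hr, mul_comm]
      omega
    · exact pack_height P hr h2 (fun κ hκ => h κ (List.mem_cons_of_mem _ hκ)) κ hκ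

/-- **Packing.** -/
theorem pack_run [DecidableEq V] (P : DSP V k) {r : ℕ} (hr : 1 ≤ r)
    (hu : ∀ q s c q' u, P.next q s c = Sum.inl (q', u) → u.length ≤ 2) (x : V → Fin k)
    {t m τ : ℕ} {b : Bool} (h : P.Run x t m τ b) : (P.pack r).Run x t m (τ / r) b := by
  obtain ⟨l, h1, h2, h3, h4⟩ := h
  have h0 : P.Rel r (P.start, []) ((P.pack r).start, []) := ⟨rfl, rfl⟩
  obtain ⟨l', h5, h6⟩ := P.pack_path hr hu x l _ _ h0 h1
  refine ⟨l', h5, ?_, ?_, P.pack_height hr h6 h4⟩
  · rw [List.length_cons] at h2 ⊢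
    rw [← h6.length_eq]
    exact h2
  · rw [P.pack_query (List.Forall₂.cons h0 h6)]
    exact h3

theorem pack_size (P : DSP V k) (r : ℕ) (h2 : 2 ≤ P.size) :
    (P.pack r).size ≤ P.size ^ (2 * r + 2) := by
  have h0 : 1 ≤ Fintype.card P.State := Fintype.card_pos_iff.2 ⟨P.start⟩
  have h1 : (P.pack r).size = Fintype.card P.State * Fintype.card (Buf P.Sym (2 * r)) +
      Fintype.card (Blk P.Sym r) := by
    unfold size
    congr 1
    exact Fintype.card_prod _ _
  have e1 : Fintype.card P.Sym + 1 ≤ P.size := by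
    unfold size
    omega
  have e2 : Fintype.card P.State ≤ P.size := by
    unfold size
    omega
  have e3 : Fintype.card (Buf P.Sym (2 * r)) ≤ P.size ^ (2 * r) :=
    (card_buf P.Sym (2 * r)).trans (Nat.pow_le_pow_left e1 _)
  have e4 : Fintype.card (Blk P.Sym r) ≤ P.size ^ r :=
    (card_blk P.Sym r).trans (Nat.pow_le_pow_left e1 _)
  rw [h1]
  calc Fintype.card P.State * Fintype.card (Buf P.Sym (2 * r)) + Fintype.card (Blk P.Sym r)
      ≤ P.size * P.size ^ (2 * r) + P.size ^ r := Nat.add_le_add (Nat.mul_le_mul e2 e3) e4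
    _ ≤ P.size ^ (2 * r + 1) + P.size ^ (2 * r + 1) := by
        apply Nat.add_le_add
        · rw [pow_succ, mul_comm]
        · exact Nat.pow_le_pow_right (by omega) (by omega)
    _ = 2 * P.size ^ (2 * r + 1) := by ring
    _ ≤ P.size * P.size ^ (2 * r + 1) := Nat.mul_le_mul_right _ h2
    _ = P.size ^ (2 * r + 2) := by ring

end DSP

end Pool.Agent.W997.GS
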