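import Pool.Agent.W997.GS.Det
import Pool.Agent.W997.DB.Inst

/-!
# Evaluation of the unrolled De Bruijn graph with a stack
-/

set_option autoImplicit false

namespace Pool.Agent.W997.GS

open Finset
open Pool.Agent.W997.TS (bit)
open Pool.Agent.W997.DB

variable {D ρ h k : ℕ}

/-- The states: evaluate a node, or look up the entry of a table. -/
abbrev ESt (D ρ h k : ℕ) : Type :=
  ((Fin (h + 1) × Word D ρ) × Fin D) ⊕ (Fin h × Word D ρ × Fin D × (Fin D → Fin k))

/-- The stack symbols: an inner node, the child which is being evaluated, and the values of the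
previous children. -/
abbrev ESy (D ρ h k : ℕ) : Type := (Fin h × Word D ρ × Fin D) × Fin D × (Fin D → Fin k)

/-- A value is returned to the topmost frame. -/
def ret (top : Option (ESy D ρ h k)) (a : Fin k) : (ESt D ρ h k × List (ESy D ρ h k)) ⊕ Bool :=
  match top with
  | none => Sum.inr (bit a)
  | some (v, s, c) =>
    if hs : s.val + 1 < D then
      Sum.inl (Sum.inl ((v.1.castSucc, shift v.2.1 v.2.2), ⟨s.val + 1, hs⟩),
        [(v, ⟨s.val + 1, hs⟩, Function.update c s a)])
    else Sum.inl (Sum.inr (v.1, v.2.1, v.2.2, Function.update c s a), [])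

/-- The program. -/
abbrev evalP (D ρ h k : ℕ) (hD : 0 < D) (g0 : Word D ρ) (i0 : Fin D) : DSP (Var D ρ h k) k where
  State := ESt D ρ h k
  Sym := ESy D ρ h k
  start := Sum.inl ((Fin.last h, g0), i0)
  query := fun q => match q with
    | Sum.inl v => Sum.inr (v.1.2, v.2)
    | Sum.inr w => Sum.inl w
  next := fun q top a => match q with
    | Sum.inr _ => ret top a
    | Sum.inl v =>
      if hj : v.1.1.val = 0 then ret top a
      else
        Sum.inl (Sum.inl ((⟨v.1.1.val - 1, by have := v.1.1.2; omega⟩, shift v.1.2 v.2), ⟨0, hD⟩),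
          ((⟨v.1.1.val - 1, by have := v.1.1.2; omega⟩, v.1.2, v.2), ⟨0, hD⟩, fun _ => a) ::
            top.toList)

theorem evalP_push (hD : 0 < D) (g0 : Word D ρ) (i0 : Fin D) :
    ∀ q s c q' u, (evalP D ρ h k hD g0 i0).next q s c = Sum.inl (q', u) → u.length ≤ 2 := by
  have hret : ∀ (top : Option (ESy D ρ h k)) (a : Fin k) (q' : ESt D ρ h k)
      (u : List (ESy D ρ h k)), ret top a = Sum.inl (q', u) → u.length ≤ 2 := by
    intro top a q' u h1
    unfold ret at h1
    split at h1
    · cases h1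
    · split_ifs at h1 with h2
      · cases h1
        simp
      · cases h1
        simp
  intro q s c q' u h1
  cases q with
  | inr w => exact hret _ _ _ _ h1
  | inl v =>
    have h2 : (if hj : v.1.1.val = 0 then ret s c
      else
        Sum.inl (Sum.inl ((⟨v.1.1.val - 1, by have := v.1.1.2; omega⟩, shift v.1.2 v.2), ⟨0, hD⟩),
          ((⟨v.1.1.val - 1, by have := v.1.1.2; omega⟩, v.1.2, v.2), ⟨0, hD⟩, fun _ => c) ::
            s.toList)) = Sum.inl (q', u) := h1
    split_ifs at h2 with h3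
    · exact hret _ _ _ _ h2
    · cases h2
      cases s with
      | none => exact Nat.le_succ 1
      | some s => exact le_rfl

/-- Bounds for the time. -/
def tm (D : ℕ) : ℕ → ℕ
  | 0 => 1
  | j + 1 => D * tm D j + 2

theorem tm_le (hD : 2 ≤ D) : ∀ j, tm D j + 2 ≤ 3 * D ^ j
  | 0 => by simp [tm]
  | j + 1 => by
    have h1 := tm_le hD j
    have h2 : D * (tm D j + 2) ≤ D * (3 * D ^ j) := Nat.mul_le_mul_left _ h1
    rw [tm, pow_succ]
    nlinarith

/-- The configurations during the evaluation. -/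
def Ok (hD : 0 < D) (g0 : Word D ρ) (i0 : Fin D) (x : Input D ρ h k) (n : ℕ)
    (κ : (evalP D ρ h k hD g0 i0).Conf) : Prop :=
  κ.2.length ≤ n ∧ ∃ v, (evalP D ρ h k hD g0 i0).query κ.1 = (sys D ρ h k).pos (valF x) v

theorem Ok.mono {hD : 0 < D} {g0 : Word D ρ} {i0 : Fin D} {x : Input D ρ h k} {n n' : ℕ}
    (hn : n ≤ n') {κ : (evalP D ρ h k hD g0 i0).Conf} (h : Ok hD g0 i0 x n κ) :
    Ok hD g0 i0 x n' κ := ⟨h.1.trans hn, h.2⟩

theorem ok_call (hD : 0 < D) (g0 : Word D ρ) (i0 : Fin D) (x : Input D ρ h k) (n : ℕ)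
    (v : (Fin (h + 1) × Word D ρ) × Fin D) (σ : List (ESy D ρ h k)) (hσ : σ.length ≤ n) :
    Ok hD g0 i0 x n (Sum.inl v, σ) := by
  refine ⟨hσ, ((0, v.1.2), v.2), ?_⟩
  simp [evalP, sys]

theorem evalP_run (hD : 0 < D) (g0 : Word D ρ) (i0 : Fin D) (x : Input D ρ h k) :
    ∀ (j : ℕ) (hj : j ≤ h) (g : Word D ρ) (i : Fin D) (σ : List (ESy D ρ h k)),
    ∃ (t : ℕ) (q : ESt D ρ h k), t + 1 ≤ tm D j ∧
      DSP.StepsQ (evalP D ρ h k hD g0 i0) x (Ok hD g0 i0 x (σ.length + j))
        (Sum.inl ((⟨j, Nat.lt_succ_of_le hj⟩, g), i), σ) t (q, σ) ∧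
      Ok hD g0 i0 x (σ.length + j) (q, σ) ∧
      (∀ top a, (evalP D ρ h k hD g0 i0).next q top a = ret top a) ∧
      x ((evalP D ρ h k hD g0 i0).query q) = value x j hj g i := by
  set P := evalP D ρ h k hD g0 i0 with hP
  intro j
  induction j with
  | zero =>
    intro hj g i σ
    refine ⟨0, Sum.inl ((⟨0, Nat.lt_succ_of_le hj⟩, g), i), le_rfl, rfl,
      ok_call hD g0 i0 x _ _ σ (by omega), ?_, rfl⟩
    intro top a
    rfl
  | succ j ih =>
    intro hj g i σ
    set v : Fin h × Word D ρ × Fin D := (⟨j, hj⟩, g, i) with hv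
    set val : Fin D → Fin k := fun s => value x j (Nat.le_of_succ_le hj) (shift g i) s with hval
    have hcs : (⟨j, hj⟩ : Fin h).castSucc =
        (⟨j, Nat.lt_succ_of_le (Nat.le_of_succ_le hj)⟩ : Fin (h + 1)) := rfl
    -- evaluation of the children
    have loop : ∀ (n s : ℕ) (hs : s < D) (c : Fin D → Fin k), n + s + 1 = D →
        (∀ t : Fin D, t.val < s → c t = val t) →
        ∃ t, t ≤ (n + 1) * tm D j ∧
          DSP.StepsQ P x (Ok hD g0 i0 x (σ.length + (j + 1)))
            (Sum.inl ((⟨j, Nat.lt_succ_of_le (Nat.le_of_succ_le hj)⟩, shift g i), ⟨s, hs⟩),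
              (v, ⟨s, hs⟩, c) :: σ) t
            (Sum.inr (v.1, v.2.1, v.2.2, val), σ) := by
      intro n
      induction n with
      | zero =>
        intro s hs c hn hc
        obtain ⟨t1, q1, h1, h2, h3, h4, h5⟩ := ih (Nat.le_of_succ_le hj) (shift g i) ⟨s, hs⟩
          ((v, ⟨s, hs⟩, c) :: σ)
        have hlen : ((v, ⟨s, hs⟩, c) :: σ : List (ESy D ρ h k)).length + j =
            σ.length + (j + 1) := by
          rw [List.length_cons]
          omega
        rw [hlen] at h2 h3
        have hstep : P.Step x (q1, (v, ⟨s, hs⟩, c) :: σ)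
            (Sum.inr (v.1, v.2.1, v.2.2, val), σ) := by
          refine ⟨[], ?_, rfl⟩
          simp only [List.head?_cons]
          rw [h4, h5]
          unfold ret
          simp only
          rw [dif_neg (by omega)]
          have : Function.update c ⟨s, hs⟩ (value x j (Nat.le_of_succ_le hj) (shift g i) ⟨s, hs⟩) =
              val := by
            funext t
            by_cases ht : t = ⟨s, hs⟩
            · subst ht
              rw [Function.update_self]
            · rw [Function.update_of_ne ht]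
              apply hc
              have h6 : t.val ≠ s := fun h7 => ht (Fin.ext h7)
              have := t.2
              omega
          rw [this]
        refine ⟨t1 + 1, by omega, ?_⟩
        exact h2.append ⟨h3, _, hstep, rfl⟩
      | succ n ihn =>
        intro s hs c hn hc
        obtain ⟨t1, q1, h1, h2, h3, h4, h5⟩ := ih (Nat.le_of_succ_le hj) (shift g i) ⟨s, hs⟩
          ((v, ⟨s, hs⟩, c) :: σ)
        have hlen : ((v, ⟨s, hs⟩, c) :: σ : List (ESy D ρ h k)).length + j =
            σ.length + (j + 1) := by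
          rw [List.length_cons]
          omega
        rw [hlen] at h2 h3
        have hs1 : s + 1 < D := by omega
        set c' := Function.update c ⟨s, hs⟩
          (value x j (Nat.le_of_succ_le hj) (shift g i) ⟨s, hs⟩) with hc'
        have hstep : P.Step x (q1, (v, ⟨s, hs⟩, c) :: σ)
            (Sum.inl ((⟨j, Nat.lt_succ_of_le (Nat.le_of_succ_le hj)⟩, shift g i), ⟨s + 1, hs1⟩),
              (v, ⟨s + 1, hs1⟩, c') :: σ) := by
          refine ⟨[(v, ⟨s + 1, hs1⟩, c')], ?_, rfl⟩
          simp only [List.head?_cons]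
          rw [h4, h5]
          unfold ret
          simp only
          rw [dif_pos hs1]
          rfl
        obtain ⟨t2, h6, h7⟩ := ihn (s + 1) hs1 c' (by omega) (by
          intro t ht
          by_cases ht' : t = ⟨s, hs⟩
          · subst ht'
            rw [hc', Function.update_self]
          · rw [hc', Function.update_of_ne ht']
            apply hc
            have h6 : t.val ≠ s := fun h7 => ht' (Fin.ext h7)
            omega)
        refine ⟨t1 + (t2 + 1), ?_, ?_⟩
        · have : (n + 1 + 1) * tm D j = (n + 1) * tm D j + tm D j := by ring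
          omega
        · exact h2.append ⟨h3, _, hstep, h7⟩
    -- the first step
    obtain ⟨t, h1, h2⟩ := loop (D - 1) 0 hD (fun _ => x (Sum.inr (g, i))) (by omega)
      (fun t ht => absurd ht (Nat.not_lt_zero _))
    refine ⟨t + 1, Sum.inr (v.1, v.2.1, v.2.2, val), ?_, ?_, ?_, fun _ _ => rfl, rfl⟩
    · have h3 : D - 1 + 1 = D := by omega
      rw [h3] at h1
      rw [tm]
      omega
    · refine ⟨ok_call hD g0 i0 x _ _ σ (by omega), _, ?_, h2⟩
      refine ⟨(v, ⟨0, hD⟩, fun _ => x (Sum.inr (g, i))) :: σ.head?.toList, ?_, ?_⟩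
      · simp only [hP, evalP, Nat.succ_ne_zero, dite_false, Nat.add_sub_cancel]
        rfl
      · cases σ <;> rfl
    · refine ⟨by simp only; omega, ((⟨j + 1, Nat.lt_succ_of_le hj⟩, g), i), ?_⟩
      simp only [hP, evalP, sys, Nat.succ_ne_zero, dite_false, Nat.add_sub_cancel]
      rfl

/-- **The program with a stack.** -/
theorem evalP_spec (hD : 0 < D) (g0 : Word D ρ) (i0 : Fin D) (x : Input D ρ h k) :
    ∃ t m, t ≤ tm D h ∧ m ≤ (h + 1) * D ^ (ρ + 1) * D ∧
      (evalP D ρ h k hD g0 i0).Run x t m h (bit (value x h le_rfl g0 i0)) := by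
  classical
  obtain ⟨t, q, h1, h2, h3, h4, h5⟩ := evalP_run hD g0 i0 x h le_rfl g0 i0 []
  obtain ⟨l, hl, hp, hq⟩ := DSP.StepsQ.halts (r := bit (value x h le_rfl g0 i0)) h2 h3 (by
    rw [h4, h5]
    rfl)
  refine ⟨_, _, ?_, ?_, l, hp, rfl, rfl, ?_⟩
  · rw [List.length_cons]
    omega
  · have h6 : ((((evalP D ρ h k hD g0 i0).start, []) :: l :
        List (evalP D ρ h k hD g0 i0).Conf).map
        (fun κ => (evalP D ρ h k hD g0 i0).query κ.1)).toFinset ⊆
        univ.image (fun v => (sys D ρ h k).pos (valF x) v) := by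
      intro w hw
      rw [List.mem_toFinset, List.mem_map] at hw
      obtain ⟨κ, h7, rfl⟩ := hw
      obtain ⟨-, v, h8⟩ := hq κ h7
      rw [h8]
      exact mem_image_of_mem _ (mem_univ _)
    refine (card_le_card h6).trans (card_image_le.trans (le_of_eq ?_))
    rw [card_univ, Fintype.card_prod, Fintype.card_prod, Fintype.card_fun, Fintype.card_fin,
      Fintype.card_fin, Fintype.card_fin]
  · intro κ hκ
    have h6 := (hq κ (List.mem_cons_of_mem _ hκ)).1
    simpa using h6

theorem evalP_size (hD : 0 < D) (g0 : Word D ρ) (i0 : Fin D) :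
    (evalP D ρ h k hD g0 i0).size =
      ((h + 1) * D ^ (ρ + 1) * D + h * (D ^ (ρ + 1) * (D * k ^ D))) +
        h * (D ^ (ρ + 1) * D) * (D * k ^ D) := by
  unfold DSP.size
  simp [evalP, ESt, ESy, Word, Fintype.card_sum, Fintype.card_prod]

end Pool.Agent.W997.GS
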