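import Pool.Agent.W997.GS.Stack
import Pool.Agent.W997.GS.Eval
import Pool.Agent.W997.DB.Stmt

/-!
# The product of stack height and space
-/

set_option autoImplicit false

namespace Pool.Agent.W997.GS

open Finset
open Pool.Agent.W997.TS (bit)
open Pool.Agent.W997.DB

section

variable {V : Type} [Fintype V] [DecidableEq V] {k : ℕ}

/-- The function is computed by a deterministic program with a stack, of log size at most `s`, which
on every input stops after at most `t` steps, reads at most `m` different variables and never has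
more than `τ` symbols on its stack. -/
def ByStack (f : (V → Fin k) → Bool) (s : ℝ) (τ : ℕ) (t m : ℝ) : Prop :=
  ∃ P : DSP V k, Real.log P.size ≤ s ∧
    ∀ x, ∃ t' m' : ℕ, (t' : ℝ) ≤ t ∧ (m' : ℝ) ≤ m ∧ P.Run x t' m' τ (f x)

/-- Consider any program with a stack and any mode of acceptance (the output is an arbitrary
function of the computation graph), for which the stack never contains more than `τ` symbols and
`τ + 1` times the log size is at most `s`.  If it agrees with the function on a fraction of at least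
`1 / 2 + γ` of the inputs, then on average at least `m` different variables are read in its
reachable configurations. -/
def HardForAllModes (f : (V → Fin k) → Bool) (s γ m : ℝ) : Prop :=
  ∀ (P : SP V k) (τ : ℕ) (mode : Set (P.Conf × Fin k) → Bool),
    (τ + 1) * Real.log P.size ≤ s → P.Height τ →
    (1 / 2 + γ) * Fintype.card (V → Fin k) ≤
      (univ.filter (fun x => mode (P.graph x) = f x)).card →
    m * Fintype.card (V → Fin k) ≤ ∑ x, (P.reads x : ℝ)

end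

variable {β p h ℓ N D : ℕ} {δ : ℝ}

/-- The lower bound for programs with arbitrary branching. -/
theorem par_law (H : Par β p h ℓ N δ D) (hh2 : h ≤ 2 ^ p) (g : Word D (2 * p)) (i : Fin D)
    (P : GP (Var D (2 * p) h (2 ^ ℓ)) (2 ^ ℓ))
    (R : Input D (2 * p) h (2 ^ ℓ) → Bool)
    (hR : ∀ x y, (∀ v ∈ P.rd x P.start, y v = x v) → R y = R x)
    (hS : Real.log (Fintype.card P.State) ≤
      1 / (4 * (β : ℝ) * (21 * ((2 ^ β : ℕ) : ℝ) ^ 3 + 9)) * h * Real.log N)
    (hag : (1 / 2 + (N : ℝ) ^ (-(1 / (4 * (β : ℝ) * (21 * ((2 ^ β : ℕ) : ℝ) ^ 3 + 9))))) *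
        Fintype.card (Input D (2 * p) h (2 ^ ℓ)) ≤
      (univ.filter (fun x => R x = bit (value x h le_rfl g i))).card) :
    (N : ℝ) ^ (1 - δ) * Fintype.card (Input D (2 * p) h (2 ^ ℓ)) ≤
      ∑ x, ((P.rd x P.start).card : ℝ) := by
  have hD := H.hD
  subst hD
  have hb := H.hb
  have hp := H.hp
  have hh1 := H.h1
  have hPpos : 0 < Fintype.card P.State := Fintype.card_pos_iff.2 ⟨P.start⟩
  have hPpos' : (0 : ℝ) < Fintype.card P.State := by exact_mod_cast hPpos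
  have hN0 : (0 : ℝ) < N := by
    have := H.one_le_N
    have : 0 < N := by omega
    exact_mod_cast this
  set c : ℝ := 1 / (4 * (β : ℝ) * (21 * ((2 ^ β : ℕ) : ℝ) ^ 3 + 9)) with hc
  have hsize : 2 * (Fintype.card P.State : ℝ) ≤ (((2 ^ β : ℕ) : ℝ) ^ p) ^ h := by
    have h1 : (Fintype.card P.State : ℝ) ≤ ((N : ℝ) ^ c) ^ h := by
      rw [← Real.exp_log hPpos']
      have h2 : ((N : ℝ) ^ c) ^ h = Real.exp (c * h * Real.log N) := by
        rw [← Real.rpow_natCast, ← Real.rpow_mul hN0.le, Real.rpow_def_of_pos hN0]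
        congr 1
        ring
      rw [h2]
      exact Real.exp_le_exp.2 hS
    have h3 : ((N : ℝ) ^ c) ^ h ≤ ((2 : ℝ) ^ ((p : ℝ) / 4)) ^ h :=
      pow_le_pow_left₀ (by positivity) H.hNc h
    have h4 : 2 * ((2 : ℝ) ^ ((p : ℝ) / 4)) ^ h ≤ (((2 ^ β : ℕ) : ℝ) ^ p) ^ h := by
      push_cast
      rw [← Real.rpow_natCast ((2 : ℝ) ^ ((p : ℝ) / 4)) h, ← Real.rpow_mul (by norm_num),
        ← pow_mul, ← pow_mul, ← Real.rpow_natCast 2 (β * (p * h))]
      have h5 : (2 : ℝ) * (2 : ℝ) ^ ((p : ℝ) / 4 * h) = (2 : ℝ) ^ (1 + (p : ℝ) / 4 * h) := by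
        rw [Real.rpow_add (by norm_num), Real.rpow_one]
      rw [h5]
      apply Real.rpow_le_rpow_of_exponent_le (by norm_num)
      push_cast
      have e1 : (2 : ℝ) ≤ β := by exact_mod_cast H.hβ
      have e2 : (6 : ℝ) ≤ p := by exact_mod_cast hp
      have e3 : (1 : ℝ) ≤ h := by exact_mod_cast hh1
      have e4 : (6 : ℝ) ≤ p * h := by nlinarith
      have e5 : 2 * ((p : ℝ) * h) ≤ β * (p * h) := mul_le_mul_of_nonneg_right e1 (by linarith)
      calc 1 + (p : ℝ) / 4 * h = 1 + (p * h) / 4 := by ring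
        _ ≤ 2 * (p * h) := by linarith
        _ ≤ β * (p * h) := e5
    linarith
  have hm : 4 * h * ((2 ^ β) ^ 3) ^ (2 * p + 1) ≤
      ((2 ^ β) ^ 2) ^ (2 * p + 1) * ((2 ^ β) ^ 2) ^ (2 * p + 1) := by
    have h1 : h ≤ (2 ^ β) ^ p := by
      refine hh2.trans ?_
      apply Nat.pow_le_pow_left
      omega
    set b := 2 ^ β with hbdef
    calc 4 * h * (b ^ 3) ^ (2 * p + 1) ≤ b * b ^ p * (b ^ 3) ^ (2 * p + 1) := by gcongr
      _ = b ^ (7 * p + 4) := by ring
      _ ≤ b ^ (8 * p + 4) := Nat.pow_le_pow_right (by omega) (by omega)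
      _ = (b ^ 2) ^ (2 * p + 1) * (b ^ 2) ^ (2 * p + 1) := by ring
  have hD1 : 1 ≤ (2 ^ β) ^ 2 := Nat.one_le_pow _ _ (by omega)
  have h2 : 2 ≤ (2 ^ β) ^ 2 := by nlinarith
  have h3 : (2 ^ β) ^ 2 ≤ (2 ^ β) ^ 3 := Nat.pow_le_pow_right (by omega) (by omega)
  have key := law_avg (D := (2 ^ β) ^ 3) (ρ := 2 * p) (h := h) (k := 2 ^ ℓ) ((2 ^ β) ^ 2) h
    ((2 ^ β) ^ ((21 * ((2 ^ β) ^ 3 + 1 - (2 ^ β) ^ 2) - 11) * p)) (1 / ((2 ^ β : ℕ) : ℝ) ^ p)
    H.even_k (Nat.one_le_pow _ _ (by norm_num)) h2 h3 hh1 le_rfl hm P g i R hR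
    (H.fail (Fintype.card P.State) h hh1 hPpos'.le hsize)
    (H.agree _ _ (by positivity) hag)
  refine le_trans (mul_le_mul_of_nonneg_right ?_ (by positivity)) key
  refine H.rds.trans ?_
  have h4 : (0 : ℝ) ≤ 1 / ((2 ^ β : ℕ) : ℝ) ^ p := by positivity
  apply mul_le_mul_of_nonneg_right _ (by positivity)
  linarith

/-- The lower bound for programs with a stack. -/
theorem par_stack (H : Par β p h ℓ N δ D) (hh2 : h ≤ 2 ^ p) (g : Word D (2 * p)) (i : Fin D) :
    HardForAllModes (rootBit (h := h) (k := 2 ^ ℓ) g i)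
      (1 / (4 * (β : ℝ) * (21 * ((2 ^ β : ℕ) : ℝ) ^ 3 + 9)) * h * Real.log N)
      ((N : ℝ) ^ (-(1 / (4 * (β : ℝ) * (21 * ((2 ^ β : ℕ) : ℝ) ^ 3 + 9)))))
      ((N : ℝ) ^ (1 - δ)) := by
  intro P τ mode hS hτ hag
  have h1 := par_law H hh2 g i (P.flat τ) (fun x => mode (P.graph x)) (by
      intro x y hxy
      rw [P.flat_congr τ hτ hxy]) (by
      refine le_trans ?_ hS
      have h2 := P.flat_card τ
      have h3 : 0 < Fintype.card (P.flat τ).State :=
        Fintype.card_pos_iff.2 ⟨(P.flat τ).start⟩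
      have h4 : (Fintype.card (P.flat τ).State : ℝ) ≤ (P.size : ℝ) ^ (τ + 1) := by
        exact_mod_cast h2
      have h5 := Real.log_le_log (by exact_mod_cast h3) h4
      rw [Real.log_pow] at h5
      push_cast at h5
      exact h5) hag
  refine h1.trans ?_
  apply sum_le_sum
  intro x _
  exact_mod_cast P.flat_reads τ x

/-- The program with a stack. -/
theorem par_upper (H : Par β p h ℓ N δ D) (g : Word D (2 * p)) (i : Fin D) (r : ℕ) (hr : 1 ≤ r) :
    ByStack (rootBit (h := h) (k := 2 ^ ℓ) g i) (8 * r * Real.log N) (h / r)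
      ((D : ℝ) ^ (h + 2)) ((N : ℝ) ^ δ) := by
  have hD := H.hD
  have hb := H.hb
  have hD4 : 4 ≤ D := by
    rw [hD]
    calc 4 ≤ 2 ^ β := hb
      _ = (2 ^ β) ^ 1 := (pow_one _).symm
      _ ≤ (2 ^ β) ^ 3 := Nat.pow_le_pow_right (by positivity) (by norm_num)
  have hD0 : 0 < D := by omega
  have hh1 := H.h1
  set E := evalP D (2 * p) h (2 ^ ℓ) hD0 g i with hE
  have hk2 : 2 ≤ 2 ^ ℓ := by
    have : ℓ ≠ 0 := by
      rw [H.hℓ]
      have := H.hβ
      have := H.hp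
      positivity
    calc 2 = 2 ^ 1 := by norm_num
      _ ≤ 2 ^ ℓ := Nat.pow_le_pow_right (by norm_num) (by omega)
  have hN := H.hN
  rw [card_var] at hN
  -- the size
  set K := (2 ^ ℓ) ^ D with hK
  have hK2 : 2 ≤ K := by
    calc 2 ≤ 2 ^ ℓ := hk2
      _ = (2 ^ ℓ) ^ 1 := (pow_one _).symm
      _ ≤ (2 ^ ℓ) ^ D := Nat.pow_le_pow_right (by positivity) hD0
  set W := D ^ (2 * p + 1) with hW
  have hW1 : 1 ≤ W := Nat.one_le_pow _ _ hD0
  have hsize : E.size ≤ N ^ 2 := by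
    have h1 : E.size = ((h + 1) * W * D + h * (W * (D * K))) + h * (W * D) * (D * K) :=
      evalP_size hD0 g i
    have e1 : (h + 1) * W * D ≤ N := by
      rw [hN]
      calc (h + 1) * W * D ≤ (2 * h) * W * D := by gcongr; omega
        _ = h * (W * (D * 2)) := by ring
        _ ≤ h * (W * (D * K)) := by gcongr
        _ ≤ _ := Nat.le_add_right _ _
    have e2 : h * (W * (D * K)) ≤ N := by
      rw [hN]
      exact Nat.le_add_right _ _
    have e3 : h * (W * D) * (D * K) ≤ D * N := by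
      calc h * (W * D) * (D * K) = D * (h * (W * (D * K))) := by ring
        _ ≤ D * N := Nat.mul_le_mul_left _ e2
    have e4 : D + 2 ≤ N := by
      have h2 : D * K ≤ h * (W * (D * K)) := by
        calc D * K = 1 * (1 * (D * K)) := by ring
          _ ≤ h * (W * (D * K)) := by gcongr
      have h3 : D * 2 ≤ D * K := Nat.mul_le_mul_left _ hK2
      omega
    rw [h1]
    calc ((h + 1) * W * D + h * (W * (D * K))) + h * (W * D) * (D * K) ≤ (N + N) + D * N :=
          Nat.add_le_add (Nat.add_le_add e1 e2) e3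
      _ = (D + 2) * N := by ring
      _ ≤ N * N := Nat.mul_le_mul_right _ e4
      _ = N ^ 2 := by ring
  have hE2 : 2 ≤ E.size := by
    rw [evalP_size hD0 g i]
    have h2 : 1 ≤ (h + 1) * D ^ (2 * p + 1) * D := Nat.one_le_iff_ne_zero.2 (by positivity)
    have h3 : 1 ≤ h * (D ^ (2 * p + 1) * (D * (2 ^ ℓ) ^ D)) :=
      Nat.one_le_iff_ne_zero.2 (by positivity)
    omega
  have hN1 : 1 ≤ N := H.one_le_N
  have hpsize : (E.pack r).size ≤ N ^ (8 * r) := by
    calc (E.pack r).size ≤ E.size ^ (2 * r + 2) := E.pack_size r hE2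
      _ ≤ (N ^ 2) ^ (2 * r + 2) := Nat.pow_le_pow_left hsize _
      _ = N ^ (4 * r + 4) := by rw [← pow_mul]; congr 1; ring
      _ ≤ N ^ (8 * r) := Nat.pow_le_pow_right hN1 (by omega)
  refine ⟨E.pack r, ?_, ?_⟩
  · have h1 : 0 < (E.pack r).size := by
      have : 0 < Fintype.card (E.pack r).State := Fintype.card_pos_iff.2 ⟨(E.pack r).start⟩
      unfold DSP.size
      omega
    have h2 : ((E.pack r).size : ℝ) ≤ (N : ℝ) ^ (8 * r) := by exact_mod_cast hpsize
    have h3 := Real.log_le_log (by exact_mod_cast h1) h2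
    rw [Real.log_pow] at h3
    push_cast at h3
    exact h3
  · intro x
    obtain ⟨t, m, h1, h2, h3⟩ := evalP_spec hD0 g i x
    refine ⟨t, m, ?_, ?_, E.pack_run hr (evalP_push hD0 g i) x h3⟩
    · have h4 := tm_le (D := D) (by omega) h
      have h5 : 3 * D ^ h ≤ D ^ (h + 2) := by
        calc 3 * D ^ h ≤ (D * D) * D ^ h := by
              apply Nat.mul_le_mul_right
              nlinarith
          _ = D ^ (h + 2) := by ring
      have h6 : t ≤ D ^ (h + 2) := by omega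
      exact_mod_cast h6
    · have h5 := nodes_le H.hb H.hp H.hh
      have h6 : m ≤ (2 ^ β) ^ (10 * p) := by
        rw [hD] at h2
        calc m ≤ (h + 1) * ((2 ^ β) ^ 3) ^ (2 * p + 1) * (2 ^ β) ^ 3 := h2
          _ = (h + 1) * (((2 ^ β) ^ 3) ^ (2 * p + 1) * (2 ^ β) ^ 3) := by ring
          _ ≤ (2 ^ β) ^ (9 * p) := h5
          _ ≤ (2 ^ β) ^ (10 * p) := Nat.pow_le_pow_right (by positivity) (by omega)
      refine le_trans ?_ H.ge_pow
      exact_mod_cast h6

/-- **The product of stack height and space.** -/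
theorem stack_stmt (δ : ℝ) (hδ : 0 < δ) : ∃ D ℓ₁ : ℕ, 2 ≤ D ∧ 1 ≤ ℓ₁ ∧ ∃ c : ℝ, 0 < c ∧ ∃ p₀ : ℕ,
    ∀ p : ℕ, p₀ ≤ p → ∀ h : ℕ, 1 ≤ h → h ≤ 2 ^ p → ∀ ℓ : ℕ, ℓ = ℓ₁ * p → ∀ N : ℝ,
    N = Fintype.card (Var D (2 * p) h (2 ^ ℓ)) → N ^ c ≤ 2 ^ p ∧
      ∀ (g : Word D (2 * p)) (i : Fin D) (f : Input D (2 * p) h (2 ^ ℓ) → Bool),
      f = rootBit g i →
      (∀ r : ℕ, 1 ≤ r → ByStack f (8 * r * Real.log N) (h / r) (D ^ (h + 2)) (N ^ δ)) ∧
      HardForAllModes f (c * h * Real.log N) (N ^ (-c)) (N ^ (1 - δ)) := by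
  obtain ⟨β, p₀, hβ, hp₀, hpar⟩ := exists_par δ hδ
  have hb4 : 4 ≤ 2 ^ β := by
    calc 4 = 2 ^ 2 := by norm_num
      _ ≤ 2 ^ β := Nat.pow_le_pow_right (by norm_num) (by omega)
  obtain ⟨D, hD⟩ : ∃ D, D = (2 ^ β) ^ 3 := ⟨_, rfl⟩
  have hD2 : 2 ≤ D := by
    rw [hD]
    calc 2 ≤ 2 ^ β := by omega
      _ = (2 ^ β) ^ 1 := (pow_one _).symm
      _ ≤ (2 ^ β) ^ 3 := Nat.pow_le_pow_right (by positivity) (by norm_num)
  have hβ0 : (0 : ℝ) < β := by
    have : 0 < β := by omega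
    exact_mod_cast this
  refine ⟨D, 21 * β, hD2, by omega,
    1 / (4 * (β : ℝ) * (21 * ((2 ^ β : ℕ) : ℝ) ^ 3 + 9)), by positivity, p₀, ?_⟩
  intro p hp h h1 hh ℓ hℓ N' hN'
  obtain ⟨N, hN⟩ : ∃ N, N = Fintype.card (Var D (2 * p) h (2 ^ ℓ)) := ⟨_, rfl⟩
  rw [← hN] at hN'
  subst hN'
  have hpp : p < 2 ^ p := Nat.lt_two_pow_self
  have hh' : h + 1 ≤ (2 ^ β) ^ (2 * p) := by
    calc h + 1 ≤ 2 ^ p * 2 ^ p := by nlinarith
      _ = 2 ^ (2 * p) := by rw [← pow_add]; congr 1; ring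
      _ ≤ (2 ^ β) ^ (2 * p) := Nat.pow_le_pow_left (by omega) _
  have H := hpar D hD p hp h h1 hh' ℓ hℓ N hN
  refine ⟨?_, ?_⟩
  · refine H.hNc.trans ?_
    rw [← Real.rpow_natCast]
    apply Real.rpow_le_rpow_of_exponent_le (by norm_num)
    have hp0 : (0 : ℝ) ≤ p := by positivity
    linarith
  · rintro g i f rfl
    exact ⟨fun r hr => par_upper H g i r hr, par_stack H hh g i⟩

end Pool.Agent.W997.GS
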