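import Pool.Agent.W997.GS.Union
import Pool.Agent.W997.DB.Main

/-!
# The law for programs with arbitrary branching and arbitrary acceptance mode
-/

set_option autoImplicit false

namespace Pool.Agent.W997.GS

open Finset
open Pool.Agent.W997.TS (DBP flip flip_flip flip_val bit)
open Pool.Agent.W997.DB

section Reach

variable {V : Type} {k : ℕ} [DecidableEq V] (P : GP V k)

/-- Inputs which agree on the variables read have the same reachable states. -/
theorem from_congr {x y : V → Fin k} {q : P.State} (h : ∀ v ∈ P.rd x q, y v = x v)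
    {q' : P.State} (hq : P.From x q q') : P.From y q q' := by
  induction hq with
  | refl => exact Relation.ReflTransGen.refl
  | tail h1 h2 ih =>
    refine Relation.ReflTransGen.tail ih ?_
    unfold GP.Move at h2 ⊢
    rwa [h _ ((P.mem_rd).2 ⟨_, h1, rfl⟩)]

theorem from_congr' {x y : V → Fin k} {q : P.State} (h : ∀ v ∈ P.rd x q, y v = x v)
    {q' : P.State} (hq : P.From y q q') : P.From x q q' := by
  induction hq with
  | refl => exact Relation.ReflTransGen.refl
  | tail h1 h2 ih =>
    refine Relation.ReflTransGen.tail ih ?_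
    unfold GP.Move at h2 ⊢
    rwa [← h _ ((P.mem_rd).2 ⟨_, ih, rfl⟩)]

theorem from_iff {x y : V → Fin k} {q : P.State} (h : ∀ v ∈ P.rd x q, y v = x v)
    (q' : P.State) : P.From y q q' ↔ P.From x q q' :=
  ⟨from_congr' P h, from_congr P h⟩

theorem rd_congr {x y : V → Fin k} {q : P.State} (h : ∀ v ∈ P.rd x q, y v = x v) :
    P.rd y q = P.rd x q := by
  ext v
  rw [P.mem_rd, P.mem_rd]
  simp only [from_iff P h]

omit [DecidableEq V] in
/-- A reachable state lies on a computation. -/
theorem exists_walk {x : V → Fin k} {q q' : P.State} (h : P.From x q q') :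
    ∃ l : List P.State, P.Walk x q l ∧ q' ∈ q :: l := by
  induction h using Relation.ReflTransGen.head_induction_on with
  | refl => exact ⟨[], trivial, List.mem_singleton_self _⟩
  | head h1 _ ih =>
    obtain ⟨l, h2, h3⟩ := ih
    exact ⟨_ :: l, ⟨h1, h2⟩, List.mem_cons_of_mem _ h3⟩

end Reach

variable {D ρ h k : ℕ}

/-- **Most inputs have a good computation.** -/
theorem core (w m t : ℕ) (γ : ℝ) (hk : Even k) (hk1 : 1 ≤ k) (hw1 : 1 ≤ w) (hw : w ≤ D)
    (P : GP (Var D ρ h k) k) (g0 : Word D ρ) (i0 : Fin D)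
    (T : Input D ρ h k → ℕ) (R : Input D ρ h k → Bool)
    (hR : ∀ x y, (∀ v ∈ P.rd x P.start, y v = x v) → R y = R x)
    (hT : ∀ x q', P.From x P.start q' → ∃ l : List P.State, P.Walk x P.start l ∧
      q' ∈ P.start :: l ∧ l.length ≤ T x)
    (hfail : ((((h + 1) * D ^ (ρ + 1)) * 2 ^ D * D * t : ℕ) / (k : ℝ) ^ (D + 1 - w)) +
      Fintype.card P.State *
      ((((h + 1) * D ^ (ρ + 1)) * 2 ^ D * D * t : ℕ) / (k : ℝ) ^ (D + 1 - w)) ^ m ≤ γ)
    (hag : (1 / 2 + γ) * Fintype.card (Input D ρ h k) ≤
      (univ.filter (fun x => R x = bit (value x h le_rfl g0 i0))).card) :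
    open Classical in
    γ * Fintype.card (Input D ρ h k) ≤
      (univ.filter (fun x => t < (P.rd x P.start).card)).card +
      (univ.filter (fun x => ∃ l : List P.State, l.length ≤ T x + 1 ∧
        Good P.dbp w m g0 i0 (valF x) l)).card := by
  classical
  set Y := sys D ρ h k with hY
  set I := Fintype.card (Input D ρ h k) with hI
  have hval := fun (x : Input D ρ h k) v => valF_eq x v
  set v0 : (Fin (h + 1) × Word D ρ) × Fin D := ((hgt h 0, g0), i0) with hv0
  have hroot : ∀ x : Input D ρ h k, valF x v0 = value x h le_rfl g0 i0 := by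
    intro x
    rfl
  have htop : ∀ v, 0 < Y.ht v.1 → Y.cg v ≠ v0.1 := by
    rintro ⟨⟨j, g⟩, i⟩ hj hcon
    have h1 := congrArg (fun γ => γ.1.val) hcon
    simp only [hY, sys, hv0, hgt] at h1 hj
    have := j.2
    omega
  -- the inputs for which the root is not evaluated
  set E := univ.filter (fun x : Input D ρ h k =>
    Y.pos (valF x) v0 ∉ P.rd x P.start) with hE
  set φ : Input D ρ h k → Input D ρ h k := fun x =>
    Function.update x (Y.pos (valF x) v0) (flip hk (x (Y.pos (valF x) v0))) with hφ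
  have hφval : ∀ x, valF (φ x) = Function.update (valF x) v0 (flip hk (x (Y.pos (valF x) v0))) :=
    fun x => (Y.val_update valF hval v0 htop x _).1
  have hφpos : ∀ x, Y.pos (valF (φ x)) v0 = Y.pos (valF x) v0 := by
    intro x
    rw [hφval x]
    exact (Y.val_update valF hval v0 htop x _).2
  have hφag : ∀ x ∈ E, ∀ v ∈ P.rd x P.start, φ x v = x v := by
    intro x hx v hv
    rw [hφ]
    simp only
    rw [Function.update_of_ne]
    intro h1
    exact (mem_filter.1 hx).2 (h1 ▸ hv)
  have hhalf : 2 * (E.filter (fun x => R x = bit (value x h le_rfl g0 i0))).card ≤ E.card := by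
    refine half E R (fun x => bit (value x h le_rfl g0 i0)) φ ?_ ?_
      (fun x hx => hR x (φ x) (hφag x hx)) ?_
    · intro x hx
      rw [hE, mem_filter]
      refine ⟨mem_univ _, ?_⟩
      rw [rd_congr P (hφag x hx), hφpos]
      exact (mem_filter.1 hx).2
    · intro x _
      change Function.update (φ x) (Y.pos (valF (φ x)) v0)
        (flip hk (φ x (Y.pos (valF (φ x)) v0))) = x
      rw [hφpos]
      have h1 : φ x (Y.pos (valF x) v0) = flip hk (x (Y.pos (valF x) v0)) := by
        rw [hφ]
        simp only [Function.update_self]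
      rw [h1, Pool.Agent.W997.TS.flip_flip]
      change Function.update (Function.update x (Y.pos (valF x) v0) _) (Y.pos (valF x) v0)
        (x (Y.pos (valF x) v0)) = x
      rw [Function.update_idem, Function.update_eq_self]
    · intro x _
      rw [← hroot (φ x), ← hroot x, hφval, Function.update_self, bit_flip, hval x v0]
  -- the computations
  have hL : ∀ x, ∃ l : List P.State, P.Walk x P.start l ∧ l.length ≤ T x ∧
      (x ∉ E → ∃ q' ∈ P.start :: l, P.query q' = Y.pos (valF x) v0) := by
    intro x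
    by_cases hx : x ∈ E
    · exact ⟨[], trivial, Nat.zero_le _, fun h1 => absurd hx h1⟩
    · rw [hE, mem_filter] at hx
      push Not at hx
      obtain ⟨q', h1, h2⟩ := (P.mem_rd).1 (hx (mem_univ _))
      obtain ⟨l, h3, h4, h5⟩ := hT x q' h1
      exact ⟨l, h3, h5, fun _ => ⟨q', h4, h2⟩⟩
  choose L hLW hLT hLR using hL
  -- the bad inputs
  set B := univ.filter (fun x : Input D ρ h k =>
    (∀ a, (rdAt Y P x P.start a).card ≤ t) ∧
      (Y.Crowded P.dbp (valF x) (D + 1 - w) 1 (P.start :: L x) ∨
        ∃ q' l', q' :: l' <:+ P.start :: L x ∧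
          Y.Crowded P.dbp (valF x) (D + 1 - w) m (q' :: l'))) with hB
  have hBb : (B.card : ℝ) ≤ γ * I := by
    refine (random_bound Y P valF hval D (fun γ => card_prs γ) t (D + 1 - w) m (by omega) hk1 L
      B (fun x hx => ⟨hLW x, (mem_filter.1 hx).2.1, (mem_filter.1 hx).2.2⟩)).trans ?_
    apply mul_le_mul_of_nonneg_right _ (by positivity)
    have h1 : Fintype.card (Fin (h + 1) × Word D ρ) = (h + 1) * D ^ (ρ + 1) := by
      rw [Fintype.card_prod, Fintype.card_fun, Fintype.card_fin, Fintype.card_fin,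
        Fintype.card_fin]
    rw [h1]
    exact hfail
  -- the good inputs
  have hcov : I ≤ E.card + B.card + ((univ.filter (fun x => t < (P.rd x P.start).card)).card +
      (univ.filter (fun x => ∃ l : List P.State, l.length ≤ T x + 1 ∧
        Good P.dbp w m g0 i0 (valF x) l)).card) := by
    rw [hI, ← card_univ]
    refine (card_le_card (?_ : (univ : Finset (Input D ρ h k)) ⊆ (E ∪ B) ∪
      (univ.filter (fun x => t < (P.rd x P.start).card) ∪
        univ.filter (fun x => ∃ l : List P.State,
        l.length ≤ T x + 1 ∧ Good P.dbp w m g0 i0 (valF x) l)))).trans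
      ((card_union_le _ _).trans (Nat.add_le_add (card_union_le _ _) (card_union_le _ _)))
    intro x _
    by_cases h1 : x ∈ E
    · exact mem_union_left _ (mem_union_left _ h1)
    by_cases h2 : x ∈ B
    · exact mem_union_left _ (mem_union_right _ h2)
    apply mem_union_right
    by_cases h3 : ∀ a, (rdAt Y P x P.start a).card ≤ t
    · apply mem_union_right
      rw [mem_filter]
      refine ⟨mem_univ _, ?_⟩
      rw [hB, mem_filter] at h2
      push Not at h2
      obtain ⟨h4, h5⟩ := h2 (mem_univ _) h3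
      exact ⟨P.start :: L x, by rw [List.length_cons]; exact Nat.succ_le_succ (hLT x),
        hLR x h1, h4, h5⟩
    · apply mem_union_left
      rw [mem_filter]
      refine ⟨mem_univ _, ?_⟩
      push Not at h3
      obtain ⟨a, ha⟩ := h3
      exact lt_of_lt_of_le ha (card_le_card (filter_subset _ _))
  have hcorr : (univ.filter (fun x => R x = bit (value x h le_rfl g0 i0))).card ≤
      (E.filter (fun x => R x = bit (value x h le_rfl g0 i0))).card + (I - E.card) := by
    have h1 : univ.filter (fun x => R x = bit (value x h le_rfl g0 i0)) ⊆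
        E.filter (fun x => R x = bit (value x h le_rfl g0 i0)) ∪ Eᶜ := by
      intro x hx
      by_cases h2 : x ∈ E
      · exact mem_union_left _ (mem_filter.2 ⟨h2, (mem_filter.1 hx).2⟩)
      · exact mem_union_right _ (mem_compl.2 h2)
    refine (card_le_card h1).trans ((card_union_le _ _).trans ?_)
    rw [card_compl]
  have hEI : E.card ≤ I := by
    rw [hI, ← card_univ]
    exact card_le_univ E
  have h1 : (univ.filter (fun x => R x = bit (value x h le_rfl g0 i0))).card * 2 + E.card ≤
      2 * I := by omega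
  have h2 : ((univ.filter (fun x => R x = bit (value x h le_rfl g0 i0))).card : ℝ) * 2 + E.card ≤
      2 * I := by exact_mod_cast h1
  have h3 : (E.card : ℝ) ≤ (1 - 2 * γ) * I := by linarith
  have h4 : (I : ℝ) ≤ E.card + B.card + ((univ.filter (fun x => t < (P.rd x P.start).card)).card +
      (univ.filter (fun x => ∃ l : List P.State, l.length ≤ T x + 1 ∧
        Good P.dbp w m g0 i0 (valF x) l)).card) := by exact_mod_cast hcov
  linarith

/-- **The law.** -/
theorem law_card (w m t : ℕ) (γ : ℝ) (hk : Even k) (hk1 : 1 ≤ k)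
    (hw2 : 2 ≤ w) (hw : w ≤ D) (hh : 1 ≤ h) (hmh : m ≤ h)
    (hm : 4 * m * D ^ (ρ + 1) ≤ w ^ (ρ + 1) * w ^ (ρ + 1))
    (P : GP (Var D ρ h k) k) (g0 : Word D ρ) (i0 : Fin D) (R : Input D ρ h k → Bool)
    (hR : ∀ x y, (∀ v ∈ P.rd x P.start, y v = x v) → R y = R x)
    (hfail : ((((h + 1) * D ^ (ρ + 1)) * 2 ^ D * D * t : ℕ) / (k : ℝ) ^ (D + 1 - w)) +
      Fintype.card P.State *
      ((((h + 1) * D ^ (ρ + 1)) * 2 ^ D * D * t : ℕ) / (k : ℝ) ^ (D + 1 - w)) ^ m ≤ γ)
    (hag : (1 / 2 + γ) * Fintype.card (Input D ρ h k) ≤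
      (univ.filter (fun x => R x = bit (value x h le_rfl g0 i0))).card) :
    γ * Fintype.card (Input D ρ h k) ≤
      (univ.filter (fun x => t < (P.rd x P.start).card)).card := by
  classical
  have hex : ∀ x : Input D ρ h k, ∃ T : ℕ, ∀ q', P.From x P.start q' → ∃ l : List P.State,
      P.Walk x P.start l ∧ q' ∈ P.start :: l ∧ l.length ≤ T := by
    intro x
    have h1 : ∀ q', ∃ n : ℕ, P.From x P.start q' → ∃ l : List P.State,
        P.Walk x P.start l ∧ q' ∈ P.start :: l ∧ l.length ≤ n := by
      intro q'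
      by_cases h2 : P.From x P.start q'
      · obtain ⟨l, h3, h4⟩ := exists_walk P h2
        exact ⟨l.length, fun _ => ⟨l, h3, h4, le_rfl⟩⟩
      · exact ⟨0, fun h3 => absurd h3 h2⟩
    choose n hn using h1
    refine ⟨univ.sup n, ?_⟩
    intro q' h2
    obtain ⟨l, h3, h4, h5⟩ := hn q' h2
    exact ⟨l, h3, h4, h5.trans (le_sup (mem_univ q'))⟩
  choose T hT using hex
  have h1 := core w m t γ hk hk1 (by omega) hw P g0 i0 T R hR hT hfail hag
  have h2 : (univ.filter (fun x => ∃ l : List P.State, l.length ≤ T x + 1 ∧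
      Good P.dbp w m g0 i0 (valF x) l)) = ∅ := by
    rw [eq_empty_iff_forall_notMem]
    intro x hx
    obtain ⟨l, -, h2, h3, h4⟩ := (mem_filter.1 hx).2
    exact no_good P.dbp (valF x) l w m hw2 hw hh hmh hm g0 i0 h2 h3 h4
  rw [h2, card_empty, Nat.cast_zero, add_zero] at h1
  refine h1.trans ?_
  exact_mod_cast card_le_card fun x hx => hx

/-- The law for the average number of variables. -/
theorem law_avg (w m t : ℕ) (γ : ℝ) (hk : Even k) (hk1 : 1 ≤ k)
    (hw2 : 2 ≤ w) (hw : w ≤ D) (hh : 1 ≤ h) (hmh : m ≤ h)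
    (hm : 4 * m * D ^ (ρ + 1) ≤ w ^ (ρ + 1) * w ^ (ρ + 1))
    (P : GP (Var D ρ h k) k) (g0 : Word D ρ) (i0 : Fin D) (R : Input D ρ h k → Bool)
    (hR : ∀ x y, (∀ v ∈ P.rd x P.start, y v = x v) → R y = R x)
    (hfail : ((((h + 1) * D ^ (ρ + 1)) * 2 ^ D * D * t : ℕ) / (k : ℝ) ^ (D + 1 - w)) +
      Fintype.card P.State *
      ((((h + 1) * D ^ (ρ + 1)) * 2 ^ D * D * t : ℕ) / (k : ℝ) ^ (D + 1 - w)) ^ m ≤ γ)
    (hag : (1 / 2 + γ) * Fintype.card (Input D ρ h k) ≤
      (univ.filter (fun x => R x = bit (value x h le_rfl g0 i0))).card) :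
    γ * (t + 1) * Fintype.card (Input D ρ h k) ≤ ∑ x, ((P.rd x P.start).card : ℝ) := by
  classical
  have h2 := law_card w m t γ hk hk1 hw2 hw hh hmh hm P g0 i0 R hR hfail hag
  set I : ℝ := (Fintype.card (Input D ρ h k) : ℝ) with hI
  have h3 : (univ.filter (fun x => t < (P.rd x P.start).card)).card * (t + 1) ≤
      ∑ x, (P.rd x P.start).card := by
    calc (univ.filter (fun x => t < (P.rd x P.start).card)).card * (t + 1)
        = ∑ _x ∈ univ.filter (fun x => t < (P.rd x P.start).card), (t + 1) := by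
          rw [sum_const, smul_eq_mul]
      _ ≤ ∑ x ∈ univ.filter (fun x => t < (P.rd x P.start).card), (P.rd x P.start).card := by
          apply sum_le_sum
          intro x hx
          exact (mem_filter.1 hx).2
      _ ≤ ∑ x, (P.rd x P.start).card := sum_le_sum_of_subset (filter_subset _ _)
  have h4 : (((univ.filter (fun x => t < (P.rd x P.start).card)).card * (t + 1) : ℕ) : ℝ) ≤
      ((∑ x, (P.rd x P.start).card : ℕ) : ℝ) := by exact_mod_cast h3
  push_cast at h4
  calc γ * (t + 1) * I = γ * I * (t + 1) := by ring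
    _ ≤ (univ.filter (fun x => t < (P.rd x P.start).card)).card * (t + 1) :=
        mul_le_mul_of_nonneg_right h2 (by positivity)
    _ ≤ _ := h4

end Pool.Agent.W997.GS
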