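import Pool.Agent.W997.GS.Main

/-!
# Programs with a stack
-/

set_option autoImplicit false

namespace Pool.Agent.W997.GS

open Finset
open Pool.Agent.W997.DB

/-- A program with a stack over the variables `V`, with any branching: in the state `q` the variable
`query q` is read; if its value is `c` and `s` is the topmost symbol of the stack (`none` if the
stack is empty), then for every `(q', u)` in `next q s c` the program may go to the state `q'` and
replace the topmost symbol by the word `u`. -/
structure SP (V : Type) (k : ℕ) where
  /-- the states -/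
  State : Type
  /-- the stack symbols -/
  Sym : Type
  /-- there are finitely many states -/
  [fintypeState : Fintype State]
  /-- there are finitely many stack symbols -/
  [fintypeSym : Fintype Sym]
  /-- the start state -/
  start : State
  /-- the variable read in a state -/
  query : State → V
  /-- the possible moves -/
  next : State → Option Sym → Fin k → Set (State × List Sym)

attribute [instance] SP.fintypeState SP.fintypeSym

namespace SP

variable {V : Type} {k : ℕ}

/-- The configurations: a state and the content of the stack, topmost symbol first. -/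
abbrev Conf (P : SP V k) : Type := P.State × List P.Sym

/-- The steps on the input `x`. -/
def Step (P : SP V k) (x : V → Fin k) (κ κ' : P.Conf) : Prop :=
  ∃ u, (κ'.1, u) ∈ P.next κ.1 κ.2.head? (x (P.query κ.1)) ∧ κ'.2 = u ++ κ.2.tail

/-- The configuration is reachable on the input `x`, from the start state with empty stack. -/
def Reach (P : SP V k) (x : V → Fin k) (κ : P.Conf) : Prop :=
  Relation.ReflTransGen (P.Step x) (P.start, []) κ

/-- The computation graph on the input `x`: the set of all pairs of a reachable configuration and
the value read in it. -/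
def graph (P : SP V k) (x : V → Fin k) : Set (P.Conf × Fin k) :=
  {p | P.Reach x p.1 ∧ x (P.query p.1.1) = p.2}

/-- The number of different variables which are read in reachable configurations. -/
noncomputable def reads [Fintype V] (P : SP V k) (x : V → Fin k) : ℕ :=
  open Classical in (univ.filter (fun v => ∃ κ, P.Reach x κ ∧ P.query κ.1 = v)).card

/-- The number of states and stack symbols. -/
def size (P : SP V k) : ℕ := Fintype.card P.State + Fintype.card P.Sym

/-- The stack never contains more than `τ` symbols. -/
def Height (P : SP V k) (τ : ℕ) : Prop := ∀ x κ, P.Reach x κ → κ.2.length ≤ τ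

theorem graph_congr (P : SP V k) {x y : V → Fin k}
    (h : ∀ κ, P.Reach x κ → y (P.query κ.1) = x (P.query κ.1)) : P.graph y = P.graph x := by
  have h1 : ∀ κ, P.Reach x κ → P.Reach y κ := by
    intro κ hκ
    unfold Reach at hκ
    induction hκ with
    | refl => exact Relation.ReflTransGen.refl
    | tail h1 h2 ih =>
      refine Relation.ReflTransGen.tail ih ?_
      obtain ⟨u, h3, h4⟩ := h2
      exact ⟨u, by rwa [h _ h1], h4⟩
  have h2 : ∀ κ, P.Reach y κ → P.Reach x κ := by
    intro κ hκ
    unfold Reach at hκ
    induction hκ with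
    | refl => exact Relation.ReflTransGen.refl
    | tail h1 h2 ih =>
      refine Relation.ReflTransGen.tail ih ?_
      obtain ⟨u, h3, h4⟩ := h2
      exact ⟨u, by rwa [← h _ ih], h4⟩
  ext p
  constructor
  · rintro ⟨h3, h4⟩
    exact ⟨h2 _ h3, by rw [← h _ (h2 _ h3)]; exact h4⟩
  · rintro ⟨h3, h4⟩
    exact ⟨h1 _ h3, by rw [h _ h3]; exact h4⟩

/-! ### Elimination of a low stack -/

/-- The stacks of height at most `τ`. -/
abbrev Low (α : Type) (τ : ℕ) : Type := {l : List α // l.length ≤ τ}

noncomputable instance instFintypeLow (α : Type) [Fintype α] (τ : ℕ) : Fintype (Low α τ) :=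
  @Fintype.ofFinite _ (List.finite_length_le α τ).to_subtype

theorem card_low (α : Type) [Fintype α] (τ : ℕ) :
    Fintype.card (Low α τ) ≤ (Fintype.card α + 1) ^ τ := by
  classical
  have h1 : Fintype.card (Fin τ → Option α) = (Fintype.card α + 1) ^ τ := by
    rw [Fintype.card_fun, Fintype.card_option, Fintype.card_fin]
  rw [← h1]
  refine Fintype.card_le_of_injective (fun l => fun i => l.1[i.1]?) ?_
  rintro ⟨l, hl⟩ ⟨l', hl'⟩ he
  apply Subtype.ext
  simp only
  apply List.ext_getElem?
  intro i
  by_cases hi : i < τ
  · exact congrFun he ⟨i, hi⟩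
  · rw [List.getElem?_eq_none (by omega), List.getElem?_eq_none (by omega)]

/-- The program without stack whose states are the configurations. -/
noncomputable def flat (P : SP V k) (τ : ℕ) : GP V k where
  State := P.State × Low P.Sym τ
  start := (P.start, ⟨[], Nat.zero_le _⟩)
  query := fun q => P.query q.1
  next := fun q c => {q' | ∃ u, (q'.1, u) ∈ P.next q.1 q.2.1.head? c ∧ q'.2.1 = u ++ q.2.1.tail}

theorem flat_card (P : SP V k) (τ : ℕ) : Fintype.card (P.flat τ).State ≤ P.size ^ (τ + 1) := by
  have h0 : 1 ≤ Fintype.card P.State := Fintype.card_pos_iff.2 ⟨P.start⟩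
  have h1 : Fintype.card (P.flat τ).State =
      Fintype.card P.State * Fintype.card (Low P.Sym τ) := Fintype.card_prod _ _
  rw [h1, pow_succ, mul_comm]
  apply Nat.mul_le_mul
  · refine (card_low P.Sym τ).trans (Nat.pow_le_pow_left ?_ _)
    unfold size
    omega
  · unfold size
    omega

theorem flat_reach (P : SP V k) (τ : ℕ) {x : V → Fin k} {q : (P.flat τ).State}
    (h : (P.flat τ).From x (P.flat τ).start q) : P.Reach x (q.1, q.2.1) := by
  unfold GP.From at h
  induction h with
  | refl => exact Relation.ReflTransGen.refl
  | tail _ h2 ih => exact Relation.ReflTransGen.tail ih h2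

theorem reach_flat (P : SP V k) (τ : ℕ) (hτ : P.Height τ) {x : V → Fin k} {κ : P.Conf}
    (h : P.Reach x κ) : (P.flat τ).From x (P.flat τ).start (κ.1, ⟨κ.2, hτ x κ h⟩) := by
  have key : ∀ κ, P.Reach x κ → ∀ (hk : κ.2.length ≤ τ),
      (P.flat τ).From x (P.flat τ).start (κ.1, ⟨κ.2, hk⟩) := by
    intro κ hκ
    unfold Reach at hκ
    induction hκ with
    | refl =>
      intro _
      exact Relation.ReflTransGen.refl
    | tail h1 h2 ih =>
      intro hk
      exact Relation.ReflTransGen.tail (ih (hτ x _ h1)) h2
  exact key κ h _

theorem flat_reads [Fintype V] [DecidableEq V] (P : SP V k) (τ : ℕ) (x : V → Fin k) :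
    ((P.flat τ).rd x (P.flat τ).start).card ≤ P.reads x := by
  classical
  unfold reads
  apply card_le_card
  intro v hv
  obtain ⟨q, h1, h2⟩ := ((P.flat τ).mem_rd).1 hv
  rw [mem_filter]
  exact ⟨mem_univ _, (q.1, q.2.1), P.flat_reach τ h1, h2⟩

theorem flat_congr [DecidableEq V] (P : SP V k) (τ : ℕ) (hτ : P.Height τ) {x y : V → Fin k}
    (h : ∀ v ∈ (P.flat τ).rd x (P.flat τ).start, y v = x v) : P.graph y = P.graph x := by
  apply P.graph_congr
  intro κ hκ
  apply h
  rw [(P.flat τ).mem_rd]
  exact ⟨_, P.reach_flat τ hτ hκ, rfl⟩

end SP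

end Pool.Agent.W997.GS
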