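import Pool.Agent.W997.GS.Count
import Pool.Agent.W997.DB.Input

/-!
# The fibre bound and the union bound for programs with arbitrary branching
-/

set_option autoImplicit false

namespace Pool.Agent.W997.GS

open Finset
open Pool.Agent.W997.TS (DBP)
open Pool.Agent.W997.DB (Sys)

variable {V Γ : Type} {D k : ℕ} [Fintype Γ] [DecidableEq Γ] [DecidableEq V] (Y : Sys V Γ D k)
  (P : GP V k)

/-- The fibre bound. -/
theorem fiber (Δ : ℕ) (hΔ : ∀ γ, (Y.prs γ).card ≤ Δ) (g : V → Fin k) (t : ℕ) (q : P.State)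
    (U : Finset (Γ × Fin D)) (A : Finset (Γ × Fin D → Fin k))
    (hA : ∀ z ∈ A, ∃ l : List P.State, P.Walk (Y.inp g z) q l ∧
      (∀ c ∈ U, Y.Live P.dbp z c (q :: l)) ∧ ∀ a, (rdAt Y P (Y.inp g z) q a).card ≤ t) :
    A.card * k ^ U.card ≤
      (Δ * t) ^ (U.image Prod.fst).card * k ^ Fintype.card (Γ × Fin D) := by
  classical
  set res : (Γ × Fin D → Fin k) → (((Uᶜ : Finset (Γ × Fin D)) : Type) → Fin k) :=
    fun z c => z c.1 with hres
  have hfib : ∀ y : ((Uᶜ : Finset (Γ × Fin D)) : Type) → Fin k,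
      (A.filter (fun z => res z = y)).card ≤ (Δ * t) ^ (U.image Prod.fst).card := by
    intro y
    have h1 := count Y P g t q _ U {q} ∅ (fun _ => ∅) (A.filter (fun z => res z = y)) le_rfl
      (mem_singleton_self q) ?_ ?_ ?_ ?_ ?_ ?_ ?_
    · refine h1.trans ?_
      rw [← prod_const]
      apply prod_le_prod'
      intro γ _
      simp only [card_empty, Nat.sub_zero, sum_const, smul_eq_mul]
      exact Nat.mul_le_mul_right _ (hΔ γ)
    · intro z hz w hw c hc
      have h2 := (mem_filter.1 hz).2.trans (mem_filter.1 hw).2.symm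
      exact congrFun h2 ⟨c, mem_compl.2 hc⟩
    · intro z _ γ _ a _
      exact notMem_empty _
    · intro z _ a
      exact empty_subset _
    · intro z _ q' hq'
      rw [mem_singleton] at hq'
      subst hq'
      exact Relation.ReflTransGen.refl
    · intro z _ q' hq'
      exact absurd hq' (notMem_empty _)
    · intro z _ q' hq'
      exact absurd hq' (notMem_empty _)
    · intro z hz
      exact hA z (mem_filter.1 hz).1
  have h1 : A.card = ∑ y : ((Uᶜ : Finset (Γ × Fin D)) : Type) → Fin k,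
      (A.filter (fun z => res z = y)).card :=
    card_eq_sum_card_fiberwise (fun z _ => mem_coe.2 (mem_univ _))
  have h2 : A.card ≤ k ^ (Uᶜ).card * (Δ * t) ^ (U.image Prod.fst).card := by
    rw [h1]
    refine (sum_le_sum fun y _ => hfib y).trans ?_
    rw [sum_const, card_univ, Fintype.card_fun, Fintype.card_fin, Fintype.card_coe, smul_eq_mul]
  calc A.card * k ^ U.card ≤ (k ^ (Uᶜ).card * (Δ * t) ^ (U.image Prod.fst).card) * k ^ U.card :=
        Nat.mul_le_mul_right _ h2
    _ = (Δ * t) ^ (U.image Prod.fst).card * (k ^ (Uᶜ).card * k ^ U.card) := by ring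
    _ = (Δ * t) ^ (U.image Prod.fst).card * k ^ Fintype.card (Γ × Fin D) := by
        rw [← pow_add, card_compl_add_card]

/-- **The union bound.** -/
theorem union_bound (Δ : ℕ) (hΔ : ∀ γ, (Y.prs γ).card ≤ Δ) (g : V → Fin k) (t : ℕ)
    (q : P.State) (e n : ℕ) (he : 1 ≤ e) (hk : 1 ≤ k) (A : Finset (Γ × Fin D → Fin k))
    (hA : ∀ z ∈ A, ∃ l : List P.State, P.Walk (Y.inp g z) q l ∧
      (∀ a, (rdAt Y P (Y.inp g z) q a).card ≤ t) ∧
      ∃ S : Finset Γ, S.card = n ∧ ∀ γ ∈ S, e ≤ Y.lv P.dbp z γ (q :: l)) :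
    (A.card : ℝ) ≤ ((Fintype.card Γ * 2 ^ D * Δ * t : ℕ) / (k : ℝ) ^ e) ^ n *
      (k : ℝ) ^ Fintype.card (Γ × Fin D) := by
  classical
  have hk0 : (0 : ℝ) < k := by exact_mod_cast hk
  -- the parametrisation of the sets
  set Uf : (Fin n → Γ × Finset (Fin D)) → Finset (Γ × Fin D) := fun f =>
    univ.biUnion (fun j => (f j).2.image (fun s => ((f j).1, s))) with hUf
  set F : Finset (Fin n → Γ × Finset (Fin D)) :=
    univ.filter (fun f => Function.Injective (fun j => (f j).1) ∧ ∀ j, e ≤ (f j).2.card) with hF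
  set B : (Fin n → Γ × Finset (Fin D)) → Finset (Γ × Fin D → Fin k) := fun f =>
    A.filter (fun z => ∃ l : List P.State, P.Walk (Y.inp g z) q l ∧
      (∀ c ∈ Uf f, Y.Live P.dbp z c (q :: l)) ∧ ∀ a, (rdAt Y P (Y.inp g z) q a).card ≤ t) with hB
  have hcov : A ⊆ F.biUnion B := by
    intro z hz
    obtain ⟨l, hp, hb, S, hS, hS2⟩ := hA z hz
    let en : Fin n ≃ S := (finCongr hS.symm).trans S.equivFin.symm
    set f : Fin n → Γ × Finset (Fin D) := fun j =>
      ((en j : Γ), univ.filter (fun s : Fin D => Y.Live P.dbp z ((en j : Γ), s) (q :: l))) with hf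
    rw [mem_biUnion]
    refine ⟨f, ?_, ?_⟩
    · rw [hF, mem_filter]
      refine ⟨mem_univ _, ?_, ?_⟩
      · intro j j' hjj
        exact en.injective (Subtype.ext hjj)
      · intro j
        have := hS2 _ (en j).2
        unfold Sys.lv at this
        convert this using 2
    · rw [hB, mem_filter]
      refine ⟨hz, l, hp, ?_, hb⟩
      intro c hc
      rw [hUf, mem_biUnion] at hc
      obtain ⟨j, -, hc⟩ := hc
      obtain ⟨s, hs, rfl⟩ := mem_image.1 hc
      exact (mem_filter.1 hs).2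
  have hFcard : (F.card : ℝ) ≤ ((Fintype.card Γ * 2 ^ D : ℕ) : ℝ) ^ n := by
    have h1 : F.card ≤ (Fintype.card Γ * 2 ^ D) ^ n := by
      refine (card_le_univ F).trans (le_of_eq ?_)
      rw [Fintype.card_fun, Fintype.card_prod, Fintype.card_finset, Fintype.card_fin,
        Fintype.card_fin]
    exact_mod_cast h1
  have hBcard : ∀ f ∈ F, ((B f).card : ℝ) ≤ (((Δ * t : ℕ) : ℝ) / (k : ℝ) ^ e) ^ n *
      (k : ℝ) ^ Fintype.card (Γ × Fin D) := by
    intro f hf
    rw [hF, mem_filter] at hf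
    obtain ⟨-, hinj, hcard⟩ := hf
    have himg : ((Uf f).image Prod.fst).card = n := by
      have h1 : (Uf f).image Prod.fst = univ.image (fun j => (f j).1) := by
        ext γ
        simp only [hUf, mem_image, mem_biUnion, mem_univ, true_and]
        constructor
        · rintro ⟨c, ⟨j, s, hs, rfl⟩, rfl⟩
          exact ⟨j, rfl⟩
        · rintro ⟨j, rfl⟩
          have h2 : (f j).2.Nonempty := by
            rw [← card_pos]
            have := hcard j
            omega
          obtain ⟨s, hs⟩ := h2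
          exact ⟨_, ⟨j, s, hs, rfl⟩, rfl⟩
      rw [h1, card_image_of_injective _ hinj, card_univ, Fintype.card_fin]
    have hUcard : e * n ≤ (Uf f).card := by
      rw [hUf, card_biUnion]
      · calc e * n = ∑ _j : Fin n, e := by simp [mul_comm]
          _ ≤ ∑ j : Fin n, ((f j).2.image (fun s => ((f j).1, s))).card := by
            apply sum_le_sum
            intro j _
            rw [card_image_of_injective]
            · exact hcard j
            · intro s s' hss
              exact (Prod.mk.inj hss).2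
      · intro j _ j' _ hjj
        change Disjoint ((f j).2.image (fun s => ((f j).1, s)))
          ((f j').2.image (fun s => ((f j').1, s)))
        rw [disjoint_left]
        intro c hc hc'
        obtain ⟨s, -, rfl⟩ := mem_image.1 hc
        obtain ⟨s', -, h1⟩ := mem_image.1 hc'
        exact hjj (hinj (Prod.mk.inj h1).1.symm)
    have h1 := fiber Y P Δ hΔ g t q (Uf f) (B f) (fun z hz => (mem_filter.1 hz).2)
    rw [himg] at h1
    have h2 : ((B f).card : ℝ) * (k : ℝ) ^ (Uf f).card ≤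
        ((Δ * t : ℕ) : ℝ) ^ n * (k : ℝ) ^ Fintype.card (Γ × Fin D) := by exact_mod_cast h1
    have h3 : (k : ℝ) ^ (e * n) ≤ (k : ℝ) ^ (Uf f).card :=
      pow_le_pow_right₀ (by exact_mod_cast hk) hUcard
    rw [div_pow, ← pow_mul, div_mul_eq_mul_div, le_div_iff₀ (by positivity)]
    calc ((B f).card : ℝ) * (k : ℝ) ^ (e * n) ≤ (B f).card * (k : ℝ) ^ (Uf f).card :=
          mul_le_mul_of_nonneg_left h3 (by positivity)
      _ ≤ _ := h2
  calc (A.card : ℝ) ≤ ((F.biUnion B).card : ℝ) := by exact_mod_cast card_le_card hcov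
    _ ≤ ((∑ f ∈ F, (B f).card : ℕ) : ℝ) := by exact_mod_cast card_biUnion_le
    _ = ∑ f ∈ F, ((B f).card : ℝ) := by push_cast; rfl
    _ ≤ ∑ f ∈ F, ((((Δ * t : ℕ) : ℝ) / (k : ℝ) ^ e) ^ n *
          (k : ℝ) ^ Fintype.card (Γ × Fin D)) := sum_le_sum hBcard
    _ = F.card * ((((Δ * t : ℕ) : ℝ) / (k : ℝ) ^ e) ^ n *
          (k : ℝ) ^ Fintype.card (Γ × Fin D)) := by rw [sum_const, nsmul_eq_mul]
    _ ≤ ((Fintype.card Γ * 2 ^ D : ℕ) : ℝ) ^ n * ((((Δ * t : ℕ) : ℝ) / (k : ℝ) ^ e) ^ n *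
          (k : ℝ) ^ Fintype.card (Γ × Fin D)) :=
        mul_le_mul_of_nonneg_right hFcard (by positivity)
    _ = _ := by
        rw [← mul_assoc, ← mul_pow]
        congr 2
        push_cast
        ring

variable (val : (V → Fin k) → Γ × Fin D → Fin k) (hval : ∀ x v, val x v = x (Y.pos (val x) v))

/-- The states of a computation are reachable. -/
theorem walk_suffix (x : V → Fin k) : ∀ (l : List P.State) (q q' : P.State) (l' : List P.State),
    P.Walk x q l → q' :: l' <:+ q :: l → P.Walk x q' l' ∧ P.From x q q'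
  | [], q, q', l', _, hs => by
    have h1 : q' :: l' = [q] := by
      rcases List.suffix_cons_iff.1 hs with h | h
      · exact h
      · rw [List.suffix_nil] at h
        cases h
    cases h1
    exact ⟨trivial, Relation.ReflTransGen.refl⟩
  | q1 :: l, q, q', l', hp, hs => by
    rcases List.suffix_cons_iff.1 hs with h | h
    · cases h
      exact ⟨hp, Relation.ReflTransGen.refl⟩
    · obtain ⟨h1, h2⟩ := walk_suffix x l q1 q' l' hp.2 h
      exact ⟨h1, Relation.ReflTransGen.head hp.1 h2⟩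

include hval in
/-- **The bound for random inputs.** -/
theorem random_bound [Fintype V] (Δ : ℕ) (hΔ : ∀ γ, (Y.prs γ).card ≤ Δ) (t : ℕ)
    (e m : ℕ) (he : 1 ≤ e) (hk : 1 ≤ k) (L : (V → Fin k) → List P.State)
    (A : Finset (V → Fin k))
    (hA : ∀ x ∈ A, P.Walk x P.start (L x) ∧ (∀ a, (rdAt Y P x P.start a).card ≤ t) ∧
      (Y.Crowded P.dbp (val x) e 1 (P.start :: L x) ∨
        ∃ q l, q :: l <:+ P.start :: L x ∧ Y.Crowded P.dbp (val x) e m (q :: l))) :
    (A.card : ℝ) ≤ (((Fintype.card Γ * 2 ^ D * Δ * t : ℕ) / (k : ℝ) ^ e) +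
      Fintype.card P.State * ((Fintype.card Γ * 2 ^ D * Δ * t : ℕ) / (k : ℝ) ^ e) ^ m) *
        Fintype.card (V → Fin k) := by
  classical
  refine Y.transfer val hval A _ ?_ hk
  intro g B hB
  set ρ : ℝ := ((Fintype.card Γ * 2 ^ D * Δ * t : ℕ) : ℝ) / (k : ℝ) ^ e with hρ
  set K : ℝ := (k : ℝ) ^ Fintype.card (Γ × Fin D) with hK
  set B0 := B.filter (fun z => Y.Crowded P.dbp z e 1 (P.start :: L (Y.inp g z))) with hB0
  set B1 : P.State → Finset (Γ × Fin D → Fin k) := fun q =>
    B.filter (fun z => ∃ l, q :: l <:+ P.start :: L (Y.inp g z) ∧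
      Y.Crowded P.dbp z e m (q :: l)) with hB1
  have hcov : B ⊆ B0 ∪ univ.biUnion B1 := by
    intro z hz
    obtain ⟨-, h1, h2⟩ := hA _ (hB z hz)
    rw [Y.val_inp val hval] at h2
    rcases h2 with h2 | ⟨q, l, hs, h2⟩
    · exact mem_union_left _ (mem_filter.2 ⟨hz, h2⟩)
    · exact mem_union_right _ (mem_biUnion.2 ⟨q, mem_univ _, mem_filter.2 ⟨hz, l, hs, h2⟩⟩)
  have b0 : (B0.card : ℝ) ≤ ρ ^ 1 * K := by
    refine union_bound Y P Δ hΔ g t P.start e 1 he hk B0 ?_
    intro z hz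
    obtain ⟨hzB, h1⟩ := mem_filter.1 hz
    exact ⟨L (Y.inp g z), (hA _ (hB z hzB)).1, (hA _ (hB z hzB)).2.1, h1⟩
  have b1 : ∀ q, ((B1 q).card : ℝ) ≤ ρ ^ m * K := by
    intro q
    refine union_bound Y P Δ hΔ g t q e m he hk (B1 q) ?_
    intro z hz
    obtain ⟨hzB, l, hs, h1⟩ := mem_filter.1 hz
    obtain ⟨h2, h3⟩ := walk_suffix P (Y.inp g z) _ _ _ _ (hA _ (hB z hzB)).1 hs
    refine ⟨l, h2, ?_, h1⟩
    intro a
    refine (card_le_card ?_).trans ((hA _ (hB z hzB)).2.1 a)
    intro w hw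
    rw [mem_rdAt] at hw ⊢
    obtain ⟨⟨q', h4, h5⟩, h6⟩ := hw
    exact ⟨⟨q', h3.trans h4, h5⟩, h6⟩
  calc (B.card : ℝ) ≤ ((B0 ∪ univ.biUnion B1).card : ℝ) := by exact_mod_cast card_le_card hcov
    _ ≤ (B0.card : ℝ) + ((univ.biUnion B1).card : ℝ) := by exact_mod_cast card_union_le _ _
    _ ≤ (B0.card : ℝ) + ((∑ q, (B1 q).card : ℕ) : ℝ) := by
        have : (univ.biUnion B1).card ≤ ∑ q, (B1 q).card := card_biUnion_le
        have h2 : ((univ.biUnion B1).card : ℝ) ≤ ((∑ q, (B1 q).card : ℕ) : ℝ) := by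
          exact_mod_cast this
        linarith
    _ ≤ ρ ^ 1 * K + ∑ _q : P.State, ρ ^ m * K := by
        push_cast
        exact add_le_add b0 (sum_le_sum fun q _ => b1 q)
    _ = (ρ + Fintype.card P.State * ρ ^ m) * K := by
        rw [sum_const, nsmul_eq_mul, card_univ]
        ring

end Pool.Agent.W997.GS
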